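import Pool.Agent.Y346.SG.DSG
import Pool.Agent.W114.PQ.App

set_option autoImplicit false

/-!
# Application to difference sets with Singer parameters
-/

namespace Pool.Agent.Y346.SG

open Finset Filter Topology
open Pool.Agent.H951R4.OD (ch PI Ex)
open Pool.Agent.W114.PQ (Dat Pass datS ex_split finX squeeze)
open Pool.Agent.H771R2.SingerDS Pool.Agent.H771R2.Lander
open Pool.Agent.Y346.SG.DS (datG)

/-- the test for a prime divisor `q` of the order of the group (lemma of helper343) -/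
theorem excluded_dvd {n m q p a u j : ℕ} (hm : Odd m) (hm3 : 3 ≤ m) (hn : 2 ≤ n)
    (h : HasSinger n m) (hq : q.Prime) (hqv' : q ∣ ∑ i ∈ Finset.range m, n ^ i) (hp : p.Prime)
    (hnu : n = p ^ a * u) (hpu : ¬ p ∣ u) (ha : Odd a) (hj : (p : ZMod q) ^ j = -1) : False := by
  obtain ⟨G, hG, hGf, hGd, D, h1, h2, h3⟩ := h
  have : Fact q.Prime := ⟨hq⟩
  have hn1 : 0 < n - 1 := by omega
  have hgeom : ∀ j : ℕ, (∑ i ∈ Finset.range j, n ^ i) * (n - 1) = n ^ j - 1 := by
    intro j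
    exact Nat.geomSum_eq (by omega) j ▸ (Nat.div_mul_cancel (by
      simpa using Nat.sub_dvd_pow_sub_pow n 1 j))
  have hv : Fintype.card G = ∑ i ∈ Finset.range m, n ^ i :=
    Nat.eq_of_mul_eq_mul_right hn1 (h1.trans (hgeom m).symm)
  have hk : D.card = ∑ i ∈ Finset.range (m - 1), n ^ i :=
    Nat.eq_of_mul_eq_mul_right hn1 (h2.trans (hgeom (m - 1)).symm)
  have hlam : ∀ g : G, g ≠ 1 → ((D ×ˢ D).filter (fun p : G × G => p.1 * p.2⁻¹ = g)).card =
      ∑ i ∈ Finset.range (m - 2), n ^ i := fun g hg =>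
    Nat.eq_of_mul_eq_mul_right hn1 ((h3 g hg).trans (hgeom (m - 2)).symm)
  have hodd : Odd (Fintype.card G) := by
    obtain ⟨j, rfl⟩ := hm
    rw [hv]
    exact odd_geom n j
  have hqv : q ∣ Fintype.card G := by rw [hv]; exact hqv'
  have hru : ¬ (p : ℤ) ∣ ((u : ℤ) ^ (m - 2)) := by
    intro h4
    have h5 := (Nat.prime_iff_prime_int.1 hp).dvd_of_dvd_pow h4
    exact hpu (by exact_mod_cast h5)
  refine no_difference_set D _ _ hk hlam hodd hq hqv hp hj (a := a * (m - 2)) ?_ hru ?_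
  · refine ha.mul ?_
    obtain ⟨j, rfl⟩ := hm
    exact ⟨j - 1, by omega⟩
  · have h4 : m - 1 = (m - 2) + 1 := by omega
    rw [h4, Finset.sum_range_succ]
    push_cast
    rw [hnu]
    push_cast
    ring

theorem pass0 {L n m : ℕ} (b : ℝ) (hm : Odd m) (hm3 : 3 ≤ m) (hLm : L ∣ m) (hn : 2 ≤ n)
    (h : HasSinger n m)
    (hb : b = 1 → ∀ p : ℕ, Ex (6 * L) n p → p % 4 ≠ 3) : Pass (datG L b) n :=
  ⟨(Pool.Agent.W114.PQ.pass_singer hm hm3 hLm hn h).1, hb⟩

theorem geom_mod_two {n m : ℕ} (hm3 : 3 ≤ m) (h4 : n % 4 = 2) :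
    (∑ i ∈ Finset.range m, n ^ i) % 4 = 3 := by
  induction m, hm3 using Nat.le_induction with
  | base =>
    rw [Finset.sum_range_succ, Finset.sum_range_succ, Finset.sum_range_succ, Finset.sum_range_zero]
    simp [Nat.add_mod, Nat.pow_mod, h4]
  | succ m hm ih =>
    rw [Finset.sum_range_succ, Nat.add_mod, ih]
    have h : n ^ m % 4 = 0 := by
      obtain ⟨k, rfl⟩ : ∃ k, m = 2 + k := ⟨m - 2, by omega⟩
      rw [pow_add, Nat.mul_mod]
      have : n ^ 2 % 4 = 0 := by simp [Nat.pow_mod, h4]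
      rw [this]
      simp
    rw [h]

theorem geom_mod_one {n m : ℕ} (h4 : n % 4 = 1) :
    (∑ i ∈ Finset.range m, n ^ i) % 4 = m % 4 := by
  induction m with
  | zero => simp
  | succ m ih =>
    rw [Finset.sum_range_succ, Nat.add_mod, ih]
    have h : n ^ m % 4 = 1 := by simp [Nat.pow_mod, h4]
    rw [h]
    omega

theorem no_three {n m : ℕ} (hm : Odd m) (hm3 : 3 ≤ m) (hn : 2 ≤ n) (h : HasSinger n m)
    (h4 : n % 4 = 2 ∨ (n % 4 = 1 ∧ m % 4 = 3)) {c p : ℕ} (hE : Ex c n p) : p % 4 ≠ 3 := by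
  intro hp4
  have hp : p.Prime := hE.1
  have hpn : p ∣ n := hE.2.2.1
  have : Fact p.Prime := ⟨hp⟩
  set V : ℕ := ∑ i ∈ Finset.range m, n ^ i with hV
  have hV4 : V % 4 = 3 := by
    rcases h4 with h4 | ⟨h4, h5⟩
    · exact geom_mod_two hm3 h4
    · rw [hV, geom_mod_one h4, h5]
  have hodd : Odd V := by
    rw [Nat.odd_iff]; omega
  have h5 : jacobiSym (p : ℤ) V = -1 := by
    rw [jacobiSym.quadratic_reciprocity_three_mod_four hp4 hV4]
    have h6 : jacobiSym (V : ℤ) p = 1 := by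
      have h7 : (V : ℤ) % (p : ℤ) = 1 % (p : ℤ) := by
        have h8 : V = 1 + n * ∑ i ∈ Finset.range (m - 1), n ^ i := by
          have h9 : m = (m - 1) + 1 := by omega
          rw [hV]
          conv_lhs => rw [h9]
          rw [Finset.sum_range_succ', Finset.mul_sum, pow_zero, add_comm]
          congr 1
          refine Finset.sum_congr rfl fun i _ => ?_
          ring
        obtain ⟨c, hc⟩ := hpn
        rw [h8]
        push_cast
        rw [hc]
        push_cast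
        rw [mul_assoc (p : ℤ), Int.add_mul_emod_self_left]
      rw [jacobiSym.mod_left, h7, ← jacobiSym.mod_left, jacobiSym.one_left]
    rw [h6]
  obtain ⟨q, hq, hqV, hJ⟩ := jacobiSym.eq_neg_one_at_prime_divisor_of_eq_neg_one h5
  have : Fact q.Prime := ⟨hq⟩
  rw [← jacobiSym.legendreSym.to_jacobiSym] at hJ
  have h8 : ((p : ℕ) : ZMod q) ^ (q / 2) = -1 := by
    have h9 := legendreSym.eq_pow q (p : ℤ)
    rw [hJ, Int.cast_natCast] at h9
    rw [← h9]
    push_cast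
    rfl
  have hnp := ex_split hE
  exact excluded_dvd hm hm3 hn h hq hqV hE.1 hnp.1 hnp.2 odd_one h8

/-- the condition on `L`, `n`, `m` -/
def Cond (L n m : ℕ) : Prop := ¬ L.Prime ∨ n % 4 = 2 ∨ (n % 4 = 1 ∧ m % 4 = 3)

theorem tau_one {L : ℕ} (h3 : 3 ≤ L) : (1 : ℝ) ≤ (datS L).τ := by
  have h2 : (datS L).τ = ((L.divisors.filter (fun d => 1 < d)).card : ℝ) := by
    unfold datS
    congr!
  rw [h2]
  have h4 : L ∈ L.divisors.filter (fun d => 1 < d) := by
    rw [mem_filter, Nat.mem_divisors]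
    exact ⟨⟨dvd_rfl, by omega⟩, by omega⟩
  exact_mod_cast Finset.card_pos.2 ⟨L, h4⟩

theorem tau_two {L : ℕ} (h3 : 3 ≤ L) (hL : ¬ L.Prime) : (2 : ℝ) ≤ (datS L).τ := by
  have h2 : (datS L).τ = ((L.divisors.filter (fun d => 1 < d)).card : ℝ) := by
    unfold datS
    congr!
  rw [h2]
  have hmf : L.minFac.Prime := Nat.minFac_prime (by omega)
  have hne : L.minFac ≠ L := fun h => hL (h ▸ hmf)
  have h4 : ({L.minFac, L} : Finset ℕ) ⊆ L.divisors.filter (fun d => 1 < d) := by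
    intro x hx
    rw [mem_insert, mem_singleton] at hx
    rw [mem_filter, Nat.mem_divisors]
    rcases hx with rfl | rfl
    · exact ⟨⟨Nat.minFac_dvd L, by omega⟩, hmf.one_lt⟩
    · exact ⟨⟨dvd_rfl, by omega⟩, by omega⟩
  have h5 := card_le_card h4
  rw [card_pair hne] at h5
  exact_mod_cast h5

theorem app (main : S_MAIN) (low : S_LOW) {L : ℕ} (hL : Odd L) (h3 : 3 ≤ L) :
    Tendsto (fun X : ℕ => ({n : ℕ | 2 ≤ n ∧ n ≤ X ∧ ¬ IsPrimePow n ∧
      ∃ m : ℕ, Odd m ∧ 3 ≤ m ∧ L ∣ m ∧ Cond L n m ∧ HasSinger n m}.ncard : ℝ) * Real.log X / X)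
      atTop (𝓝 0) := by
  by_cases hp : L.Prime
  · have h1 : 1 < (datG L 1).τ + (datG L 1).β / 2 := by
      have e1 : (datG L 1).τ = (datS L).τ := rfl
      have e2 : (datG L 1).β = 1 := rfl
      have := tau_one h3
      rw [e1, e2]
      linarith
    refine squeeze (fun X => ?_) (fun X => ?_)
      (main (datG L 1) (DS.ax low hL h3 1 (Or.inr rfl)) h1)
    · rintro n ⟨hn2, hnX, hnp, m, hm, hm3, hLm, hC, hS⟩
      have hC' := hC.resolve_left (not_not.2 hp)
      exact ⟨by omega, hnX, pass0 1 hm hm3 hLm hn2 hS (fun _ p hE => no_three hm hm3 hn2 hS hC' hE),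
        fun hp => hnp hp.isPrimePow⟩
    · exact finX _ X
  · have h1 : 1 < (datG L 0).τ + (datG L 0).β / 2 := by
      have e1 : (datG L 0).τ = (datS L).τ := rfl
      have e2 : (datG L 0).β = 0 := rfl
      have := tau_two h3 hp
      rw [e1, e2]
      linarith
    refine squeeze (fun X => ?_) (fun X => ?_)
      (main (datG L 0) (DS.ax low hL h3 0 (Or.inl rfl)) h1)
    · rintro n ⟨hn2, hnX, hnp, m, hm, hm3, hLm, hC, hS⟩
      exact ⟨by omega, hnX, pass0 0 hm hm3 hLm hn2 hS (fun h0 => by norm_num at h0),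
        fun hp => hnp hp.isPrimePow⟩
    · exact finX _ X

end Pool.Agent.Y346.SG
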