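import Pool.Agent.Y346.SG.Stm
import Pool.Agent.H951R4.OD.C2
import Pool.Agent.H951R4.OD.M

set_option autoImplicit false

/-!
# Project PQ, tasks BK and B1: mass of the bad primes
-/

namespace Pool.Agent.Y346.SG.BK

open Finset
open Pool.Agent.H951R4.OD (ch PI Good allowed_upper mert_int char_sum_fixed neg_not_square)
open Pool.Agent.W114.PQ

theorem prod_ge_one {ps : Finset ℕ} (hps : ∀ p ∈ ps, p.Prime) : (1 : ℝ) ≤ ∏ p ∈ ps, (p : ℝ) := by
  refine Finset.prod_induction (fun p : ℕ => (p : ℝ)) (fun x => (1 : ℝ) ≤ x)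
    (fun a b ha hb => one_le_mul_of_one_le_of_one_le ha hb) le_rfl ?_
  intro p hp
  exact_mod_cast (hps p hp).one_lt.le

theorem bk : S_BK := by
  classical
  intro D hD k
  obtain ⟨CU, hCU, hU⟩ := allowed_upper (-1) (by norm_num) 0 (Or.inl rfl)
  obtain ⟨CM, hCM⟩ := hD.mert
  obtain ⟨CI, hCI0, hCI⟩ := mert_int
  have hκ := hD.κ1
  have hc0 : (0 : ℝ) ≤ D.c0 := by positivity
  have hCM0 : 0 ≤ CM := (abs_nonneg _).trans (hCM 2 2 le_rfl le_rfl)
  refine ⟨CU + CM + D.κ * (CI + CU) + D.c0, by nlinarith, ?_⟩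
  intro ps hk hps y z hy hyz
  have hprod2 : (1 : ℝ) ≤ (∏ p ∈ ps, (p : ℝ)) ^ 2 := one_le_pow₀ (prod_ge_one hps)
  have hκC : 0 ≤ D.κ * (CI + CU) := by apply mul_nonneg <;> linarith
  have hyU : CU * (∏ p ∈ ps, (p : ℝ)) ^ 2 ≤ y := by
    refine le_trans ?_ hy
    apply mul_le_mul_of_nonneg_right (by linarith) (by positivity)
  have hyc : (D.c0 : ℝ) ≤ y := by
    refine le_trans ?_ hy
    nlinarith
  have hyc' : D.c0 ≤ y := by exact_mod_cast hyc
  have hy3 : (3 : ℝ) ≤ y := by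
    refine le_trans ?_ hyU
    nlinarith
  have hy2 : 2 ≤ y := by
    have : 3 ≤ y := by exact_mod_cast hy3
    omega
  have hgood := hU ps hps y z hyU hyz
  have hmert := (abs_le.1 (hCM y z hy2 hyz)).1
  have hint := (abs_le.1 (hCI y z hy2 hyz)).2
  have hndvd : ∀ q ∈ PI y z, ¬ q ∣ D.c0 := by
    intro q hq hd
    have hq1 : y < q := by
      simp only [PI, mem_filter, mem_Ioc] at hq
      exact hq.1.1
    have := Nat.le_of_dvd hD.c0_pos hd
    omega
  have hbad : (PI y z).filter (fun q => ¬ q ∣ D.c0 ∧ ∃ p ∈ ps, ch (p : ℤ) q = -1) =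
      (PI y z).filter (fun q => ¬ ∀ p ∈ ps, ch p q ≠ -1) := by
    apply Finset.filter_congr
    intro q hq
    constructor
    · rintro ⟨-, p, hp, hpq⟩ hall
      exact hall p hp hpq
    · intro hn
      push Not at hn
      obtain ⟨p, hp, hpq⟩ := hn
      exact ⟨hndvd q hq, p, hp, hpq⟩
  have hsplit : ∑ q ∈ PI y z, D.ρ q / q =
      ∑ q ∈ Good ps y z, D.ρ q / q +
        ∑ q ∈ (PI y z).filter (fun q => ¬ q ∣ D.c0 ∧ ∃ p ∈ ps, ch (p : ℤ) q = -1), D.ρ q / q := by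
    rw [hbad]
    unfold Good
    exact (Finset.sum_filter_add_sum_filter_not _ _ _).symm
  have hgr : ∑ q ∈ Good ps y z, D.ρ q / q ≤ D.κ * ∑ q ∈ Good ps y z, (1 + 0 * ch (-1) q) / q := by
    rw [Finset.mul_sum]
    refine Finset.sum_le_sum (fun q _ => ?_)
    rw [zero_mul, add_zero, mul_one_div]
    exact div_le_div_of_nonneg_right (hD.rho_up q).2 (by positivity)
  have h5 : D.κ * ∑ q ∈ Good ps y z, (1 + 0 * ch (-1) q) / q ≤
      D.κ * ((1 / 2) ^ k * (Real.log (Real.log z / Real.log y) + CI) + CU) := by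
    apply mul_le_mul_of_nonneg_left _ (by linarith)
    rw [hk] at hgood
    refine hgood.trans ?_
    have : (1 / 2 : ℝ) ^ k * ∑ q ∈ PI y z, (1 : ℝ) / q ≤
        (1 / 2) ^ k * (Real.log (Real.log z / Real.log y) + CI) := by
      apply mul_le_mul_of_nonneg_left (by linarith) (by positivity)
    linarith
  have h6 : D.κ / 2 ^ k = D.κ * (1 / 2) ^ k := by
    rw [one_div, inv_pow, div_eq_mul_inv]
  have h7 : (1 / 2 : ℝ) ^ k ≤ 1 := pow_le_one₀ (by norm_num) (by norm_num)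
  have h8 : D.κ * ((1 / 2) ^ k * CI) ≤ D.κ * CI := by
    apply mul_le_mul_of_nonneg_left _ (by linarith)
    calc (1 / 2 : ℝ) ^ k * CI ≤ 1 * CI := mul_le_mul_of_nonneg_right h7 hCI0
      _ = CI := one_mul _
  rw [h6]
  nlinarith

end Pool.Agent.Y346.SG.BK
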