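import Pool.Agent.Y346.SG.Stm
import Pool.Agent.H951R4.OD.D2b

/-!
# Project PQ: the count for given small exact primes and a large one
-/

set_option autoImplicit false

namespace Pool.Agent.Y346.SG.CB

open Finset Filter Topology
open Pool.Agent.W114.PQ
open Pool.Agent.H951R4.OD (ch PI Ex ch_val ch_prime_ne_zero ch_eq_neg_one_iff D2b_cnt1 D2b_small
  sum_sq_inv)

open scoped Classical in
/-- the sieve weight -/
noncomputable def hh (D : Dat) (Y r A q n : ℕ) : ℝ :=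
  if (q ∣ n ∧ ¬ q ^ 2 ∣ n) ∨ (Y < q ∧ ch (r : ℤ) q = -1 ∧ D.T q (A * n)) then 1 else 0

theorem hh01 (D : Dat) (Y r A q n : ℕ) : hh D Y r A q n = 0 ∨ hh D Y r A q n = 1 := by
  unfold hh
  split_ifs <;> simp

theorem T_per {D : Dat} (h : AxG D) {q : ℕ} (hq : q.Prime) (n j : ℕ) :
    D.T q (n + j * q ^ 2) ↔ D.T q n := by
  induction j with
  | zero => simp
  | succ j ih =>
    have e : n + (j + 1) * q ^ 2 = n + j * q ^ 2 + q ^ 2 := by ring
    rw [e, h.per q _ hq, ih]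

theorem hh_per {D : Dat} (h : AxG D) (Y r A : ℕ) {q : ℕ} (hq : q.Prime) (n : ℕ) :
    hh D Y r A q (n + q ^ 2) = hh D Y r A q n := by
  unfold hh
  have h1 : q ∣ n + q ^ 2 ↔ q ∣ n := (Nat.dvd_add_left (dvd_pow_self q (by norm_num)))
  have h2 : q ^ 2 ∣ n + q ^ 2 ↔ q ^ 2 ∣ n := (Nat.dvd_add_left (dvd_refl _))
  have h3 : D.T q (A * (n + q ^ 2)) ↔ D.T q (A * n) := by
    rw [mul_add]
    exact T_per h hq _ _
  have h4 : ((q ∣ n + q ^ 2 ∧ ¬ q ^ 2 ∣ n + q ^ 2) ∨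
      (Y < q ∧ ch (r : ℤ) q = -1 ∧ D.T q (A * (n + q ^ 2)))) ↔
      ((q ∣ n ∧ ¬ q ^ 2 ∣ n) ∨ (Y < q ∧ ch (r : ℤ) q = -1 ∧ D.T q (A * n))) := by
    rw [h1, h2, h3]
  by_cases h5 : (q ∣ n ∧ ¬ q ^ 2 ∣ n) ∨ (Y < q ∧ ch (r : ℤ) q = -1 ∧ D.T q (A * n))
  · rw [if_pos h5, if_pos (h4.2 h5)]
  · rw [if_neg h5, if_neg (fun h6 => h5 (h4.1 h6))]

open scoped Classical in
/-- the mean -/
theorem hh_mean {D : Dat} (h : AxG D) (mn : S_MN) (Y r A : ℕ) {q : ℕ} (hq : q.Prime)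
    (hqc : ¬ q ∣ D.c0) (hcop : Nat.Coprime A q) :
    (∑ n ∈ range (q ^ 2), hh D Y r A q n) / (q : ℝ) ^ 2 ≤ (2 * D.κ + 1) / q ∧
    1 / (q : ℝ) - 1 / (q : ℝ) ^ 2 + (if Y < q ∧ ch (r : ℤ) q = -1 then D.ρ q / q else 0) -
      D.κ * (1 / (q : ℝ) ^ 2) ≤ (∑ n ∈ range (q ^ 2), hh D Y r A q n) / (q : ℝ) ^ 2 := by
  obtain ⟨m1, m2⟩ := mn D h q A hq hqc
  have m2 := m2 hcop
  have hq0 : (0 : ℝ) < q := by exact_mod_cast hq.pos
  have hq1 : (1 : ℝ) ≤ q := by exact_mod_cast hq.one_le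
  have hsplit : ∀ n, hh D Y r A q n = (if (q ∣ n ∧ ¬ q ^ 2 ∣ n) then (1 : ℝ) else 0) +
      (if Y < q ∧ ch (r : ℤ) q = -1 then (if D.T q (A * n) then (1 : ℝ) else 0) else 0) := by
    intro n
    unfold hh
    by_cases hT : D.T q (A * n)
    · have h1 : ¬ q ∣ n := fun hqn => m1 _ hT (dvd_mul_of_dvd_right hqn _)
      by_cases hc : Y < q ∧ ch (r : ℤ) q = -1
      · rw [if_pos (Or.inr ⟨hc.1, hc.2, hT⟩), if_neg (fun h => h1 h.1), if_pos hc, if_pos hT]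
        norm_num
      · rw [if_neg, if_neg (fun h => h1 h.1), if_neg hc]
        · norm_num
        · rintro (h2 | h2)
          · exact h1 h2.1
          · exact hc ⟨h2.1, h2.2.1⟩
    · by_cases hd : q ∣ n ∧ ¬ q ^ 2 ∣ n
      · rw [if_pos (Or.inl hd), if_pos hd]
        split_ifs <;> norm_num
      · rw [if_neg, if_neg hd]
        · split_ifs <;> norm_num
        · rintro (h2 | h2)
          · exact hd h2
          · exact hT h2.2.2
  have hsum : (∑ n ∈ range (q ^ 2), hh D Y r A q n) / (q : ℝ) ^ 2 =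
      (1 / (q : ℝ) - 1 / (q : ℝ) ^ 2) + (if Y < q ∧ ch (r : ℤ) q = -1 then
        (∑ n ∈ range (q ^ 2), (if D.T q (A * n) then (1 : ℝ) else 0)) / (q : ℝ) ^ 2 else 0) := by
    rw [Finset.sum_congr rfl fun n _ => hsplit n, Finset.sum_add_distrib, D2b_cnt1 hq]
    by_cases hc : Y < q ∧ ch (r : ℤ) q = -1
    · simp only [if_pos hc]
      field_simp
    · simp only [if_neg hc, Finset.sum_const_zero]
      field_simp
      ring
  obtain ⟨m3, m4⟩ := abs_le.1 m2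
  obtain ⟨r1, r2⟩ := h.rho_up q
  have hκ := h.κ1
  have hsq : (0 : ℝ) < 1 / (q : ℝ) ^ 2 := by positivity
  have hsq2 : 1 / (q : ℝ) ^ 2 ≤ 1 / q := by
    apply one_div_le_one_div_of_le hq0
    nlinarith
  have e1 : D.κ / (q : ℝ) ^ 2 = D.κ * (1 / (q : ℝ) ^ 2) := by ring
  have e2 : D.ρ q / q ≤ D.κ * (1 / q) := by
    rw [div_eq_mul_one_div]
    exact mul_le_mul_of_nonneg_right r2 (by positivity)
  have e3 : (2 * D.κ + 1) / q = 2 * (D.κ * (1 / q)) + 1 / q := by ring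
  have e4 : D.κ * (1 / (q : ℝ) ^ 2) ≤ D.κ * (1 / q) := mul_le_mul_of_nonneg_left hsq2 (by linarith)
  have e5 : 0 ≤ D.κ * (1 / (q : ℝ) ^ 2) := by positivity
  have e6 : 0 ≤ D.κ * (1 / (q : ℝ)) := by positivity
  rw [hsum, e3]
  rw [e1] at m3 m4
  constructor
  · split_ifs <;> linarith
  · split_ifs <;> linarith

open scoped Classical in
/-- sifting -/
theorem sift {D : Dat} (ps : Finset ℕ) (hps : ∀ p ∈ ps, p.Prime) (r : ℕ) (hr : r.Prime)
    (hrps : r ∉ ps) (X Y Q : ℕ) (hY : 3 ≤ Y) (S : Finset ℕ)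
    (hS : ∀ q ∈ S, q.Prime ∧ q ≤ Q ∧ ¬ q ∣ D.c0 ∧ q ∉ ps) (hQr : Q < r) :
    ({n : ℕ | 1 ≤ n ∧ n ≤ X ∧ Pass D n ∧ (∀ p ∈ ps, Ex D.c0 n p) ∧ Ex D.c0 n r ∧
      ∀ p : ℕ, Ex D.c0 n p → p ≤ Q → p ∈ ps}.ncard : ℝ) ≤
      ∑ n ∈ Icc 1 (X / ((∏ p ∈ ps, p) * r)), ∏ q ∈ S, (1 - hh D Y r ((∏ p ∈ ps, p) * r) q n) := by
  set A : ℕ := (∏ p ∈ ps, p) * r with hA
  have hA0 : 0 < A := Nat.mul_pos (Finset.prod_pos fun p hp => (hps p hp).pos) hr.pos
  have hAins : A = ∏ p ∈ insert r ps, p := by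
    rw [Finset.prod_insert hrps, hA, mul_comm]
  set B : Set ℕ := {n : ℕ | 1 ≤ n ∧ n ≤ X ∧ Pass D n ∧ (∀ p ∈ ps, Ex D.c0 n p) ∧ Ex D.c0 n r ∧
      ∀ p : ℕ, Ex D.c0 n p → p ≤ Q → p ∈ ps} with hB
  set F : Finset ℕ := (Icc 1 (X / A)).filter (fun m => A * m ∈ B) with hF
  have hdiv : ∀ n : ℕ, (∀ p ∈ ps, Ex D.c0 n p) → Ex D.c0 n r → A ∣ n := by
    intro n hn hnr
    rw [hAins]
    apply Finset.prod_primes_dvd
    · intro p hp
      rcases Finset.mem_insert.1 hp with rfl | hp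
      · exact hr.prime
      · exact (hps p hp).prime
    · intro p hp
      rcases Finset.mem_insert.1 hp with rfl | hp
      · exact hnr.2.2.1
      · exact (hn p hp).2.2.1
  have hsub : B ⊆ ((F.image (A * ·) : Finset ℕ) : Set ℕ) := by
    intro n hn
    obtain ⟨m, rfl⟩ := hdiv n hn.2.2.2.1 hn.2.2.2.2.1
    simp only [coe_image, Set.mem_image, mem_coe]
    refine ⟨m, ?_, rfl⟩
    rw [hF, mem_filter, mem_Icc]
    refine ⟨⟨?_, ?_⟩, hn⟩
    · rcases Nat.eq_zero_or_pos m with h | h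
      · subst h; exact absurd hn.1 (by simp)
      · exact h
    · rw [Nat.le_div_iff_mul_le hA0, mul_comm]; exact hn.2.1
  have hcard : (B.ncard : ℝ) ≤ F.card := by
    have h1 := Set.ncard_le_ncard hsub (Finset.finite_toSet _)
    rw [Set.ncard_coe_finset] at h1
    have h2 := h1.trans Finset.card_image_le
    exact_mod_cast h2
  refine hcard.trans ?_
  rw [Finset.card_filter]
  push_cast
  refine Finset.sum_le_sum fun m _ => ?_
  by_cases hm : A * m ∈ B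
  · rw [if_pos hm]
    apply le_of_eq
    symm
    apply Finset.prod_eq_one
    intro q hq
    obtain ⟨h1, h2, h3, h4⟩ := hS q hq
    have hcop : Nat.Coprime A q := by
      rw [hAins]
      apply Nat.Coprime.prod_left
      intro p hp
      rcases Finset.mem_insert.1 hp with rfl | hp
      · exact (Nat.coprime_primes hr h1).2 (by omega)
      · exact (Nat.coprime_primes (hps p hp) h1).2 (fun hh => h4 (hh ▸ hp))
    have hzero : hh D Y r A q m = 0 := by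
      unfold hh
      rw [if_neg]
      rintro (⟨h5, h6⟩ | ⟨h5, h6, h7⟩)
      · apply h4
        refine hm.2.2.2.2.2 q ⟨h1, h3, dvd_mul_of_dvd_right h5 _, ?_⟩ h2
        intro h7
        apply h6
        exact Nat.Coprime.dvd_of_dvd_mul_left (Nat.Coprime.pow_left 2 hcop.symm) h7
      · have hq2 : q ≠ 2 := by omega
        exact hm.2.2.1.1 r q ((q - 1) / 2) hm.2.2.2.2.1 h1 h3 h7
          ((ch_eq_neg_one_iff r q h1 hq2).1 h6)
    rw [hzero, sub_zero]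
  · rw [if_neg hm]
    apply Finset.prod_nonneg
    intro p _
    rcases hh01 D Y r A p m with h | h <;> rw [h] <;> norm_num

open scoped Classical in
/-- lower bound of the sum over the primes modulo which `r` is a nonresidue -/
theorem low2 {D : Dat} (h : AxG D) : ∃ C : ℝ, 0 ≤ C ∧ ∀ (k : ℕ) (ps : Finset ℕ), ps.card ≤ k →
    ∀ Y Q r : ℕ, 3 ≤ Y → Y ≤ Q → r.Prime → Q < r →
    |∑ q ∈ PI Y Q, (if q ∣ D.c0 then 0 else D.ρ q) * ch (r : ℤ) q / q| ≤ 1 / 2 →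
    1 / 2 * Real.log (Real.log Q / Real.log Y) - (C + k * D.κ) ≤
      ∑ q ∈ (PI 0 Q).filter (fun r => ¬ r ∣ D.c0 ∧ r ∉ ps),
        (if Y < q ∧ ch (r : ℤ) q = -1 then D.ρ q / q else 0) := by
  obtain ⟨Cm, hm⟩ := h.mert
  have hκ := h.κ1
  have hCm : 0 ≤ Cm := (abs_nonneg _).trans (hm 2 2 le_rfl le_rfl)
  refine ⟨1 / 4 + 1 / 2 * Cm + D.κ * D.c0, by positivity, ?_⟩
  intro k ps hk Y Q r hY hYQ hr hQr hch
  have hrho : ∀ q, 0 ≤ D.ρ q / q := fun q => div_nonneg (h.rho_up q).1 (Nat.cast_nonneg q)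
  have hrhole : ∀ q, 1 ≤ q → D.ρ q / q ≤ D.κ := by
    intro q hq
    have hq1 : (1 : ℝ) ≤ q := by exact_mod_cast hq
    rw [div_le_iff₀ (by linarith)]
    nlinarith [(h.rho_up q).2]
  -- restrict to (Y, Q]
  set S : Finset ℕ := (PI 0 Q).filter (fun r => ¬ r ∣ D.c0 ∧ r ∉ ps) with hS
  have hmemPI : ∀ q ∈ PI Y Q, q.Prime ∧ Y < q ∧ q ≤ Q := by
    intro q hq
    simp only [PI, mem_filter, mem_Ioc] at hq
    exact ⟨hq.2, hq.1.1, hq.1.2⟩
  have e1 : ∑ q ∈ S, (if Y < q ∧ ch (r : ℤ) q = -1 then D.ρ q / q else 0) =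
      ∑ q ∈ (PI Y Q).filter (fun q => ¬ q ∣ D.c0 ∧ q ∉ ps),
        (if ch (r : ℤ) q = -1 then D.ρ q / q else 0) := by
    rw [← Finset.sum_filter, ← Finset.sum_filter]
    refine Finset.sum_congr ?_ fun _ _ => rfl
    ext q
    simp only [hS, PI, mem_filter, mem_Ioc]
    constructor
    · rintro ⟨⟨⟨⟨h1, h2⟩, h3⟩, h4, h5⟩, h6, h7⟩
      exact ⟨⟨⟨⟨h6, h2⟩, h3⟩, h4, h5⟩, h7⟩
    · rintro ⟨⟨⟨⟨h6, h2⟩, h3⟩, h4, h5⟩, h7⟩
      exact ⟨⟨⟨⟨by omega, h2⟩, h3⟩, h4, h5⟩, h6, h7⟩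
  rw [e1]
  -- add the primes of `ps`
  set U : Finset ℕ := (PI Y Q).filter (fun q => ¬ q ∣ D.c0) with hU
  have e2 : ∑ q ∈ U, (if ch (r : ℤ) q = -1 then D.ρ q / q else 0) ≤
      ∑ q ∈ (PI Y Q).filter (fun q => ¬ q ∣ D.c0 ∧ q ∉ ps),
        (if ch (r : ℤ) q = -1 then D.ρ q / q else 0) + k * D.κ := by
    rw [← Finset.sum_filter_add_sum_filter_not U (fun q => q ∉ ps)]
    have h1 : U.filter (fun q => q ∉ ps) = (PI Y Q).filter (fun q => ¬ q ∣ D.c0 ∧ q ∉ ps) := by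
      rw [hU, Finset.filter_filter]
    rw [h1]
    have h2 : ∑ q ∈ U.filter (fun q => ¬ q ∉ ps), (if ch (r : ℤ) q = -1 then D.ρ q / q else 0) ≤
        ∑ q ∈ ps, D.κ := by
      have h3 : U.filter (fun q => ¬ q ∉ ps) ⊆ ps := by
        intro q hq
        simpa using (Finset.mem_filter.1 hq).2
      calc ∑ q ∈ U.filter (fun q => ¬ q ∉ ps), (if ch (r : ℤ) q = -1 then D.ρ q / q else 0)
          ≤ ∑ q ∈ U.filter (fun q => ¬ q ∉ ps), D.κ := by
            refine Finset.sum_le_sum fun q hq => ?_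
            have h4 : q ∈ PI Y Q := (Finset.mem_filter.1 ((Finset.mem_filter.1 hq).1)).1
            split_ifs
            · exact hrhole q ((hmemPI q h4).1.one_le)
            · linarith
        _ ≤ ∑ q ∈ ps, D.κ := Finset.sum_le_sum_of_subset_of_nonneg h3 fun _ _ _ => by linarith
    rw [Finset.sum_const, nsmul_eq_mul] at h2
    have h5 : (ps.card : ℝ) * D.κ ≤ k * D.κ := by
      apply mul_le_mul_of_nonneg_right _ (by linarith)
      exact_mod_cast hk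
    linarith
  -- the identity
  have e3 : ∑ q ∈ U, (if ch (r : ℤ) q = -1 then D.ρ q / q else 0) =
      1 / 2 * ∑ q ∈ U, D.ρ q / q - 1 / 2 * ∑ q ∈ U, D.ρ q * ch (r : ℤ) q / q := by
    rw [Finset.mul_sum, Finset.mul_sum, ← Finset.sum_sub_distrib]
    refine Finset.sum_congr rfl fun q hq => ?_
    obtain ⟨h1, h2, h3⟩ := hmemPI q (Finset.mem_filter.1 hq).1
    have h4 := ch_prime_ne_zero r q hr h1 (by omega) (by omega)
    rcases ch_val (r : ℤ) q with h5 | h5 | h5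
    · exact absurd h5 h4
    · rw [h5, if_neg (by norm_num)]; ring
    · rw [h5, if_pos rfl]; ring
  have e4 : ∑ q ∈ U, D.ρ q * ch (r : ℤ) q / q =
      ∑ q ∈ PI Y Q, (if q ∣ D.c0 then 0 else D.ρ q) * ch (r : ℤ) q / q := by
    rw [hU, Finset.sum_filter]
    refine Finset.sum_congr rfl fun q _ => ?_
    by_cases h1 : q ∣ D.c0
    · rw [if_neg (fun h2 => h2 h1), if_pos h1]; ring
    · rw [if_pos h1, if_neg h1]
  have e5 : ∑ q ∈ PI Y Q, D.ρ q / q ≤ ∑ q ∈ U, D.ρ q / q + D.c0 * D.κ := by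
    rw [← Finset.sum_filter_add_sum_filter_not (PI Y Q) (fun q => ¬ q ∣ D.c0)]
    have h2 : ∑ q ∈ (PI Y Q).filter (fun q => ¬ ¬ q ∣ D.c0), D.ρ q / q ≤
        ∑ q ∈ Ioc 0 D.c0, D.κ := by
      have h3 : (PI Y Q).filter (fun q => ¬ ¬ q ∣ D.c0) ⊆ Ioc 0 D.c0 := by
        intro q hq
        obtain ⟨h4, h5⟩ := Finset.mem_filter.1 hq
        rw [not_not] at h5
        rw [mem_Ioc]
        exact ⟨(hmemPI q h4).1.pos, Nat.le_of_dvd h.c0_pos h5⟩
      calc ∑ q ∈ (PI Y Q).filter (fun q => ¬ ¬ q ∣ D.c0), D.ρ q / q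
          ≤ ∑ q ∈ (PI Y Q).filter (fun q => ¬ ¬ q ∣ D.c0), D.κ := by
            refine Finset.sum_le_sum fun q hq => ?_
            exact hrhole q ((hmemPI q (Finset.mem_filter.1 hq).1).1.one_le)
        _ ≤ ∑ q ∈ Ioc 0 D.c0, D.κ :=
            Finset.sum_le_sum_of_subset_of_nonneg h3 fun _ _ _ => by linarith
    rw [Finset.sum_const, nsmul_eq_mul, Nat.card_Ioc, Nat.sub_zero] at h2
    linarith
  have h6 := (abs_le.1 (hm Y Q (by omega) hYQ)).1
  have hYr : (3 : ℝ) ≤ Y := by exact_mod_cast hY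
  have hlY : 0 < Real.log Y := Real.log_pos (by linarith)
  have hlog : 0 ≤ Real.log (Real.log Q / Real.log Y) := by
    apply Real.log_nonneg
    rw [le_div_iff₀ hlY, one_mul]
    apply Real.log_le_log (by linarith)
    exact_mod_cast hYQ
  have h7 : Real.log (Real.log Q / Real.log Y) ≤ D.τ * Real.log (Real.log Q / Real.log Y) := by
    have := h.τ1
    nlinarith
  have h8 := (abs_le.1 hch).2
  rw [← e4] at h8
  have hc0 : (0 : ℝ) ≤ D.c0 * D.κ := by positivity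
  rw [e3] at e2
  linarith

open scoped Classical in
theorem cb (sv : S_SV) (mn : S_MN) : S_CB := by
  intro D h k
  have hκ := h.κ1
  obtain ⟨Cs, hCs, hsieve⟩ := sv (2 * D.κ + 1) (by linarith)
  obtain ⟨C1, hC1, hlow2⟩ := low2 h
  obtain ⟨C2, hC2, hsq⟩ := sum_sq_inv
  choose Ca hCa hsmall using D2b_small D.c0 h.c0_pos
  set Ca' : ℝ := ∑ j ∈ range (k + 1), Ca j with hCa'
  have hCa0 : 0 ≤ Ca' := Finset.sum_nonneg fun j _ => hCa j
  have hCale : ∀ j ≤ k, Ca j ≤ Ca' := fun j hj =>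
    Finset.single_le_sum (f := Ca) (fun i _ => hCa i) (Finset.mem_range.2 (Nat.lt_succ_of_le hj))
  set C' : ℝ := Ca' + (C1 + k * D.κ) + D.κ * C2 with hC'
  have hC'0 : 0 ≤ C' := by positivity
  have hCe : 0 ≤ Cs * Real.exp C' := by positivity
  refine ⟨Cs * Real.exp C' + 4 * (Cs + 1), by linarith, ?_⟩
  intro X Y Q hY hYQ hX ps r hpk hps hr hQr hrps hAX hch
  set A : ℕ := (∏ p ∈ ps, p) * r with hA
  have hA0 : 0 < A := Nat.mul_pos (Finset.prod_pos fun p hp => (hps p hp).pos) hr.pos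
  have hAr : ((∏ p ∈ ps, (p : ℝ)) * r) = (A : ℝ) := by rw [hA]; push_cast; rfl
  rw [hAr]
  have hA1 : (1 : ℝ) ≤ A := by exact_mod_cast hA0
  have hQ3 : 3 ≤ Q := hY.trans hYQ
  have hYr : (3 : ℝ) ≤ Y := by exact_mod_cast hY
  have hQr3 : (3 : ℝ) ≤ Q := by exact_mod_cast hQ3
  have hexp : Real.exp 1 ≤ 3 := by
    have := Real.exp_one_lt_d9
    linarith
  have hlQ : 1 ≤ Real.log Q := by
    rw [Real.le_log_iff_exp_le (by linarith)]; linarith
  have hlY : 1 ≤ Real.log Y := by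
    rw [Real.le_log_iff_exp_le (by linarith)]; linarith
  have hllQ : 0 ≤ Real.log (Real.log Q) := Real.log_nonneg hlQ
  set LL : ℝ := Real.log Q * (1 + Real.log (Real.log Q)) with hLL
  have hLL1 : 1 ≤ LL := by rw [hLL]; nlinarith
  -- sizes
  have hX4 : 4 * (Cs + 1) * LL ≤ Real.log X := by
    refine le_trans ?_ hX
    rw [mul_assoc (Cs * Real.exp C' + 4 * (Cs + 1))]
    apply mul_le_mul_of_nonneg_right _ (by positivity)
    linarith
  have hX0 : 0 < Real.log X := by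
    have : 0 < 4 * (Cs + 1) * LL := by positivity
    linarith
  have hXpos : (1 : ℝ) < X := by
    by_contra hcon
    push Not at hcon
    have := Real.log_nonpos (Nat.cast_nonneg X) hcon
    linarith
  have hlA : 4 * Real.log A ≤ 3 * Real.log X := by
    have h1 : ((A : ℝ)) ^ 4 ≤ (X : ℝ) ^ 3 := by exact_mod_cast hAX
    have h2 := Real.log_le_log (by positivity) h1
    rw [Real.log_pow, Real.log_pow] at h2
    push_cast at h2
    exact h2
  have hlog2 : Real.log 2 ≤ 1 := by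
    have := Real.log_two_lt_d9
    linarith
  have hXA : Real.log (2 * A) ≤ Real.log X := by
    rw [Real.log_mul (by norm_num) (by linarith)]
    nlinarith
  have hXA' : 2 * (A : ℝ) ≤ X := (Real.log_le_log_iff (by linarith) (by linarith)).1 hXA
  have hN2 : (X : ℝ) / (2 * A) ≤ ((X / A : ℕ) : ℝ) := by
    have h1 : (X : ℝ) / A < ((X / A : ℕ) : ℝ) + 1 := by
      rw [div_lt_iff₀ (by linarith)]
      have := Nat.lt_mul_div_succ X hA0
      rw [mul_comm]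
      exact_mod_cast this
    have h2 : (2 : ℝ) ≤ X / A := by
      rw [le_div_iff₀ (by linarith)]; exact hXA'
    have h3 : (X : ℝ) / (2 * A) = (X / A) / 2 := by
      field_simp
    rw [h3]
    linarith
  have hNle : ((X / A : ℕ) : ℝ) ≤ X / A := Nat.cast_div_le
  have hlogN : Cs * Real.log Q * (1 + Real.log (Real.log Q)) ≤ Real.log ((X / A : ℕ) : ℝ) := by
    have h1 : Real.log ((X : ℝ) / (2 * A)) ≤ Real.log ((X / A : ℕ) : ℝ) :=
      Real.log_le_log (by positivity) hN2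
    rw [Real.log_div (by linarith) (by positivity), Real.log_mul (by norm_num) (by linarith)] at h1
    rw [mul_assoc]
    nlinarith
  -- the sieve
  set S : Finset ℕ := (PI 0 Q).filter (fun r => ¬ r ∣ D.c0 ∧ r ∉ ps) with hS
  have hSm : ∀ q ∈ S, q.Prime ∧ q ≤ Q ∧ ¬ q ∣ D.c0 ∧ q ∉ ps := by
    intro q hq
    simp only [hS, PI, mem_filter, mem_Ioc] at hq
    exact ⟨hq.1.2, hq.1.1.2, hq.2.1, hq.2.2⟩
  have hAins : A = ∏ p ∈ insert r ps, p := by
    rw [Finset.prod_insert hrps, hA, mul_comm]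
  have hcop : ∀ q ∈ S, Nat.Coprime A q := by
    intro q hq
    obtain ⟨h1, h2, h3, h4⟩ := hSm q hq
    rw [hAins]
    apply Nat.Coprime.prod_left
    intro p hp
    rcases Finset.mem_insert.1 hp with rfl | hp
    · exact (Nat.coprime_primes hr h1).2 (by omega)
    · exact (Nat.coprime_primes (hps p hp) h1).2 (fun hh => h4 (hh ▸ hp))
  have hmean := fun q (hq : q ∈ S) => hh_mean h mn Y r A (hSm q hq).1 (hSm q hq).2.2.1 (hcop q hq)
  have hs := hsieve Q (X / A) hQ3 hlogN S (hh D Y r A) (fun q hq => ⟨(hSm q hq).1, (hSm q hq).2.1⟩)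
    (fun q _ n => hh01 D Y r A q n) (fun q hq n => hh_per h Y r A (hSm q hq).1 n)
    (fun q hq => (hmean q hq).1)
  have hsift := sift (D := D) ps hps r hr hrps X Y Q hY S hSm hQr
  refine hsift.trans (hs.trans ?_)
  -- the lower bound of the sum of the means
  have hlow : 3 / 2 * Real.log (Real.log Q) - 1 / 2 * Real.log (Real.log Y) - C' ≤
      ∑ q ∈ S, (∑ n ∈ range (q ^ 2), hh D Y r A q n) / (q : ℝ) ^ 2 := by
    have h1 : ∑ q ∈ S, (1 / (q : ℝ) - 1 / (q : ℝ) ^ 2 +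
        (if Y < q ∧ ch (r : ℤ) q = -1 then D.ρ q / q else 0) - D.κ * (1 / (q : ℝ) ^ 2)) ≤
        ∑ q ∈ S, (∑ n ∈ range (q ^ 2), hh D Y r A q n) / (q : ℝ) ^ 2 :=
      Finset.sum_le_sum fun q hq => (hmean q hq).2
    rw [Finset.sum_sub_distrib, Finset.sum_add_distrib, ← Finset.mul_sum] at h1
    have h2 := hsmall ps.card ps rfl Q (by omega)
    rw [max_eq_left hQ3] at h2
    have h3 := hCale ps.card hpk
    have h4 := hlow2 k ps hpk Y Q r hY hYQ hr hQr hch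
    have h5 := hsq S
    have h6 : D.κ * ∑ q ∈ S, (1 : ℝ) / (q : ℝ) ^ 2 ≤ D.κ * C2 :=
      mul_le_mul_of_nonneg_left h5 (by linarith)
    rw [Real.log_div (by linarith) (by linarith)] at h4
    rw [hC']
    linarith
  have hexpo : Real.exp (-∑ q ∈ S, (∑ n ∈ range (q ^ 2), hh D Y r A q n) / (q : ℝ) ^ 2) ≤
      Real.exp C' * ((Real.log Q) ^ (-(3 / 2) : ℝ) * (Real.log Y) ^ (1 / 2 : ℝ)) := by
    rw [Real.rpow_def_of_pos (by linarith), Real.rpow_def_of_pos (by linarith), ← Real.exp_add,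
      ← Real.exp_add]
    apply Real.exp_le_exp.2
    linarith
  have hrp : 0 ≤ (Real.log Q) ^ (-(3 / 2) : ℝ) * (Real.log Y) ^ (1 / 2 : ℝ) :=
    mul_nonneg (Real.rpow_nonneg (by linarith) _) (Real.rpow_nonneg (by linarith) _)
  have hXA0 : (0 : ℝ) ≤ X / A := by positivity
  calc Cs * ((X / A : ℕ) : ℝ) * Real.exp (-∑ q ∈ S,
        (∑ n ∈ range (q ^ 2), hh D Y r A q n) / (q : ℝ) ^ 2)
      ≤ Cs * (X / A) * (Real.exp C' *
          ((Real.log Q) ^ (-(3 / 2) : ℝ) * (Real.log Y) ^ (1 / 2 : ℝ))) := by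
        gcongr
    _ = (Cs * Real.exp C') * (X / A) *
          ((Real.log Q) ^ (-(3 / 2) : ℝ) * (Real.log Y) ^ (1 / 2 : ℝ)) := by ring
    _ ≤ (Cs * Real.exp C' + 4 * (Cs + 1)) * (X / A) *
          ((Real.log Q) ^ (-(3 / 2) : ℝ) * (Real.log Y) ^ (1 / 2 : ℝ)) := by
        apply mul_le_mul_of_nonneg_right _ hrp
        apply mul_le_mul_of_nonneg_right _ hXA0
        linarith
    _ = _ := by ring

end Pool.Agent.Y346.SG.CB
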