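import Pool.Agent.Y346.SG.Stm
import Pool.Agent.Y809.PA.SH

set_option autoImplicit false

/-!
# A sharp upper bound sieve, conditions modulo `q ^ 2`
-/

namespace Pool.Agent.Y346.SG.Sharp

open Finset
open Pool.Agent.H951R4.OD (PI)
open Pool.Agent.Y809.PA (crt_card periodic_count fcc card_sets)
open scoped Classical

/-- number of classes hit -/
noncomputable def cn (hit : ℕ → ℕ → Prop) (q : ℕ) : ℕ := ((range (q ^ 2)).filter (fun n => hit q n)).card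

/-- density of the classes hit -/
noncomputable def dn (hit : ℕ → ℕ → Prop) (q : ℕ) : ℝ := (cn hit q : ℝ) / (q : ℝ) ^ 2

theorem cn_le_sq (hit : ℕ → ℕ → Prop) (q : ℕ) : cn hit q ≤ q ^ 2 := by
  unfold cn
  exact (Finset.card_filter_le _ _).trans (by rw [card_range])

theorem dn_nonneg (hit : ℕ → ℕ → Prop) (q : ℕ) : 0 ≤ dn hit q := by
  unfold dn; positivity

theorem dn_le_one (hit : ℕ → ℕ → Prop) (q : ℕ) : dn hit q ≤ 1 := by
  unfold dn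
  apply div_le_one_of_le₀ _ (by positivity)
  exact_mod_cast cn_le_sq hit q

/-- one period, several primes -/
theorem card_prod (hit : ℕ → ℕ → Prop) (hper : ∀ q : ℕ, q.Prime → ∀ n, hit q n ↔ hit q (n % q ^ 2))
    (T : Finset ℕ) (hT : ∀ q ∈ T, q.Prime) :
    ((range (∏ q ∈ T, q ^ 2)).filter (fun n => ∀ q ∈ T, hit q n)).card = ∏ q ∈ T, cn hit q := by
  induction T using Finset.induction_on with
  | empty => simp
  | insert q T hq ih =>
    have hqp : q.Prime := hT q (mem_insert_self q T)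
    have hT' : ∀ r ∈ T, r.Prime := fun r hr => hT r (mem_insert_of_mem hr)
    rw [Finset.prod_insert hq, Finset.prod_insert hq, ← ih hT']
    have hco : Nat.Coprime (q ^ 2) (∏ r ∈ T, r ^ 2) := by
      apply Nat.Coprime.prod_right
      intro r hr
      apply Nat.Coprime.pow
      rw [Nat.coprime_primes hqp (hT' r hr)]
      rintro rfl
      exact hq hr
    have h := crt_card (q ^ 2) (∏ r ∈ T, r ^ 2) hco (pow_pos hqp.pos 2)
      (Finset.prod_pos (fun r hr => pow_pos (hT' r hr).pos 2)) (fun n => hit q n)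
      (fun n => ∀ r ∈ T, hit r n) (fun n => hper q hqp n) (by
        intro n
        refine forall_congr' (fun r => forall_congr' (fun hr => ?_))
        rw [hper r (hT' r hr) n, hper r (hT' r hr) (n % ∏ r ∈ T, r ^ 2)]
        rw [Nat.mod_mod_of_dvd n (Finset.dvd_prod_of_mem (fun r => r ^ 2) hr)])
    refine (fcc _ _ (fun n => ?_)).trans (h.trans (congrArg₂ _ (fcc _ _ (fun n => Iff.rfl)) (fcc _ _ (fun n => Iff.rfl))))
    rw [Finset.forall_mem_insert]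

theorem count_T (hit : ℕ → ℕ → Prop) (hper : ∀ q : ℕ, q.Prime → ∀ n, hit q n ↔ hit q (n % q ^ 2))
    (N : ℕ) (T : Finset ℕ) (hT : ∀ q ∈ T, q.Prime) :
    |(((Icc 1 N).filter (fun n : ℕ => ∀ q ∈ T, hit q n)).card : ℝ) -
      (N : ℝ) * ∏ q ∈ T, dn hit q| ≤ ∏ q ∈ T, (cn hit q : ℝ) := by
  have hprod : 0 < ∏ q ∈ T, q ^ 2 := Finset.prod_pos (fun r hr => pow_pos (hT r hr).pos 2)
  have h3 := periodic_count (∏ q ∈ T, q ^ 2) N hprod (fun n => ∀ q ∈ T, hit q n) (by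
      intro n
      refine forall_congr' (fun r => forall_congr' (fun hr => ?_))
      rw [hper r (hT r hr) n, hper r (hT r hr) (n % ∏ r ∈ T, r ^ 2)]
      rw [Nat.mod_mod_of_dvd n (Finset.dvd_prod_of_mem (fun r => r ^ 2) hr)])
  have h5 : (((range (∏ q ∈ T, q ^ 2)).filter (fun n => ∀ q ∈ T, hit q n)).card : ℝ) =
      ∏ q ∈ T, (cn hit q : ℝ) := by rw [card_prod hit hper T hT]; push_cast; rfl
  have h6 : |(((Icc 1 N).filter (fun n : ℕ => ∀ q ∈ T, hit q n)).card : ℝ) -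
      (N : ℝ) / ((∏ q ∈ T, q ^ 2 : ℕ) : ℝ) * ∏ q ∈ T, (cn hit q : ℝ)| ≤ ∏ q ∈ T, (cn hit q : ℝ) := by
    rw [← h5]
    convert h3
  have h4 : (N : ℝ) * ∏ q ∈ T, dn hit q =
      (N : ℝ) / ((∏ q ∈ T, q ^ 2 : ℕ) : ℝ) * ∏ q ∈ T, (cn hit q : ℝ) := by
    unfold dn
    rw [Finset.prod_div_distrib]
    push_cast
    rw [div_mul_eq_mul_div, mul_div_assoc]
  rw [h4]
  exact h6

theorem exists_J (z : ℕ) (hz : 2 ≤ z) : ∃ J : ℕ, z ≤ 2 ^ 2 ^ J ∧ 2 ^ 2 ^ J ≤ z ^ 2 ∧ J + 2 ≤ 2 * z := by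
  have hex : ∃ J : ℕ, z ≤ 2 ^ 2 ^ J := by
    refine ⟨z, ?_⟩
    have h1 : z < 2 ^ z := Nat.lt_two_pow_self
    have h2 : 2 ^ z < 2 ^ 2 ^ z := Nat.lt_two_pow_self
    omega
  refine ⟨Nat.find hex, Nat.find_spec hex, ?_⟩
  rcases Nat.eq_zero_or_pos (Nat.find hex) with h0 | hpos
  · rw [h0]
    refine ⟨?_, by omega⟩
    simp only [pow_zero, pow_one]
    nlinarith
  · obtain ⟨J', hJ'⟩ := Nat.exists_eq_succ_of_ne_zero hpos.ne'
    have h1 := Nat.find_min hex (m := J') (by omega)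
    push Not at h1
    rw [hJ']
    refine ⟨?_, ?_⟩
    · rw [Nat.succ_eq_add_one, pow_succ, pow_mul]
      exact Nat.pow_le_pow_left h1.le 2
    · have h2 : J' < 2 ^ J' := Nat.lt_two_pow_self
      have h3 : 2 ^ J' < 2 ^ 2 ^ J' := Nat.lt_two_pow_self
      omega

theorem sharp (κ : ℕ) : ∃ C0 : ℕ, 1 ≤ C0 ∧ ∀ N z : ℕ, 2 ≤ z → z ^ (32 * (C0 * C0)) ≤ N →
    ∀ hit : ℕ → ℕ → Prop, (∀ q : ℕ, q.Prime → ∀ n, hit q n ↔ hit q (n % q ^ 2)) →
    (∀ q : ℕ, q.Prime → dn hit q ≤ κ / q) →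
    (((Icc 1 N).filter (fun n => ∀ q ∈ PI C0 z, ¬ hit q n)).card : ℝ) ≤
      2 * (N * Real.exp (-∑ q ∈ PI C0 z, dn hit q)) + Real.sqrt N := by
  obtain ⟨C0, hC0, hF⟩ := Pool.Agent.H20R2.fLem κ
  refine ⟨C0, hC0, ?_⟩
  intro N z hz hzN hit hper hdn
  obtain ⟨J, hJ1, hJ2, hJ3⟩ := exists_J z hz
  set Z : ℕ := 2 ^ 2 ^ J with hZ
  set D : ℕ := Z ^ (C0 * C0) with hD
  have hCC : 1 ≤ C0 * C0 := Nat.one_le_iff_ne_zero.2 (by positivity)
  have hZ2 : 2 ≤ Z := hz.trans hJ1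
  have hZD : Z ≤ D := Nat.le_self_pow (by omega) _
  have hDz : D ≤ z ^ (2 * (C0 * C0)) := by
    rw [hD, show z ^ (2 * (C0 * C0)) = (z ^ 2) ^ (C0 * C0) from pow_mul _ _ _]
    exact Nat.pow_le_pow_left hJ2 _
  have hD16 : D ^ 16 ≤ N := by
    refine le_trans (Nat.pow_le_pow_left hDz 16) ?_
    rw [← pow_mul]
    refine le_trans (le_of_eq ?_) hzN
    congr 1
    ring
  have hDJ : J + 2 ≤ D ^ 2 := by
    have : 2 * z ≤ Z * Z := Nat.mul_le_mul hZ2 hJ1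
    nlinarith
  set P : Finset ℕ := PI C0 z with hP
  have hPmem : ∀ q ∈ P, q.Prime ∧ C0 < q ∧ q ≤ z := by
    intro q hq
    rw [hP] at hq
    unfold PI at hq
    rw [mem_filter, mem_Ioc] at hq
    exact ⟨hq.2, hq.1.1, hq.1.2⟩
  have hmain := hF C0 J C0 P (dn hit) le_rfl le_rfl
    (fun q hq => ⟨(hPmem q hq).1, (hPmem q hq).2.1, (hPmem q hq).2.2.trans hJ1⟩)
    (fun q hq => ⟨dn_nonneg hit q, by
      refine (hdn q (hPmem q hq).1).trans ?_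
      have h2 : (1 : ℝ) < q := by exact_mod_cast (hPmem q hq).1.one_lt
      apply div_le_div_of_nonneg_left (Nat.cast_nonneg _) (by linarith) (by linarith)⟩)
    (Icc 1 N) (fun _ => 1) (fun q n => hit q n) N (fun T => ∏ q ∈ T, (cn hit q : ℝ))
    (fun _ _ => zero_le_one) (Nat.cast_nonneg _) (by
      intro T hT _
      rw [Finset.sum_const, nsmul_eq_mul, mul_one]
      have hTp : ∀ q ∈ T, q.Prime := fun q hq => (hPmem q (hT hq)).1
      have := count_T hit hper N T hTp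
      convert this)
  rw [Finset.sum_const, nsmul_eq_mul, mul_one] at hmain
  have herr : ((J : ℝ) + 2) * ∑ T ∈ P.powerset.filter (fun T : Finset ℕ => ∏ q ∈ T, q ≤ Z ^ (C0 * C0)),
      ∏ q ∈ T, (cn hit q : ℝ) ≤ Real.sqrt N := by
    have h1 : ∀ T ∈ P.powerset.filter (fun T : Finset ℕ => ∏ q ∈ T, q ≤ Z ^ (C0 * C0)),
        ∏ q ∈ T, (cn hit q : ℝ) ≤ (D : ℝ) ^ 2 := by
      intro T hT
      rw [mem_filter, mem_powerset] at hT
      have h2 : ∏ q ∈ T, cn hit q ≤ ∏ q ∈ T, q ^ 2 := Finset.prod_le_prod' (fun q _ => cn_le_sq hit q)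
      have h3 : ∏ q ∈ T, q ^ 2 ≤ D ^ 2 := by
        rw [Finset.prod_pow]
        exact Nat.pow_le_pow_left hT.2 2
      exact_mod_cast h2.trans h3
    have h2 := Finset.sum_le_card_nsmul _ _ _ h1
    rw [nsmul_eq_mul] at h2
    have h3 := card_sets P (fun q hq => (hPmem q hq).1) D
    have h3' : ((P.powerset.filter (fun T : Finset ℕ => ∏ q ∈ T, q ≤ Z ^ (C0 * C0))).card : ℝ) ≤ D := by
      exact_mod_cast h3
    have h4 : ((J : ℝ) + 2) ≤ (D : ℝ) ^ 2 := by exact_mod_cast hDJ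
    have h5 : (0 : ℝ) ≤ ∑ T ∈ P.powerset.filter (fun T : Finset ℕ => ∏ q ∈ T, q ≤ Z ^ (C0 * C0)),
      ∏ q ∈ T, (cn hit q : ℝ) := Finset.sum_nonneg (fun T _ => Finset.prod_nonneg (fun q _ => Nat.cast_nonneg _))
    have h6 : ((J : ℝ) + 2) * ∑ T ∈ P.powerset.filter (fun T : Finset ℕ => ∏ q ∈ T, q ≤ Z ^ (C0 * C0)),
          ∏ q ∈ T, (cn hit q : ℝ) ≤ (D : ℝ) ^ 5 := by
      calc ((J : ℝ) + 2) * ∑ T ∈ P.powerset.filter (fun T : Finset ℕ => ∏ q ∈ T, q ≤ Z ^ (C0 * C0)),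
          ∏ q ∈ T, (cn hit q : ℝ) ≤ (D : ℝ) ^ 2 * (D * (D : ℝ) ^ 2) := by
            refine mul_le_mul h4 (h2.trans ?_) h5 (by positivity)
            gcongr
        _ = (D : ℝ) ^ 5 := by ring
    refine h6.trans ?_
    apply Real.le_sqrt_of_sq_le
    rw [← pow_mul]
    have h7 : D ^ (5 * 2) ≤ D ^ 16 := Nat.pow_le_pow_right (by omega) (by norm_num)
    exact_mod_cast h7.trans hD16
  have hprod : ∏ q ∈ P, (1 - dn hit q) ≤ Real.exp (-∑ q ∈ P, dn hit q) := by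
    rw [← Finset.sum_neg_distrib, Real.exp_sum]
    refine Finset.prod_le_prod (fun q _ => ?_) (fun q _ => ?_)
    · have := dn_le_one hit q
      linarith
    · have := Real.add_one_le_exp (-dn hit q)
      linarith
  have hpos : 0 ≤ ∏ q ∈ P, (1 - dn hit q) :=
    Finset.prod_nonneg fun q _ => by
      have := dn_le_one hit q
      linarith
  have hN0 : (0 : ℝ) ≤ N := Nat.cast_nonneg _
  have hhalf : (1 / 2 : ℝ) ^ C0 ≤ 1 := pow_le_one₀ (by norm_num) (by norm_num)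
  have h1 := (abs_le.1 hmain).2
  have h2 : (N : ℝ) * ∏ q ∈ P, (1 - dn hit q) ≤ N * Real.exp (-∑ q ∈ P, dn hit q) :=
    mul_le_mul_of_nonneg_left hprod hN0
  have h3 : 0 ≤ (N : ℝ) * ∏ q ∈ P, (1 - dn hit q) := mul_nonneg hN0 hpos
  have h4 : (1 / 2 : ℝ) ^ C0 * ((N : ℝ) * ∏ q ∈ P, (1 - dn hit q)) ≤
      (N : ℝ) * ∏ q ∈ P, (1 - dn hit q) := mul_le_of_le_one_left h3 hhalf
  have h5 : (((Icc 1 N).filter (fun n => ∀ q ∈ P, ¬ hit q n)).card : ℝ) ≤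
      (N : ℝ) * ∏ q ∈ P, (1 - dn hit q) + ((1 / 2 : ℝ) ^ C0 * ((N : ℝ) * ∏ q ∈ P, (1 - dn hit q)) +
        ((J : ℝ) + 2) * ∑ T ∈ P.powerset.filter (fun T : Finset ℕ => ∏ q ∈ T, q ≤ Z ^ (C0 * C0)),
      ∏ q ∈ T, (cn hit q : ℝ)) := by
    have e : (((Icc 1 N).filter (fun n => ∀ q ∈ P, ¬ hit q n)).card : ℝ) - (N : ℝ) * ∏ q ∈ P, (1 - dn hit q) ≤
      ((1 / 2 : ℝ) ^ C0 * ((N : ℝ) * ∏ q ∈ P, (1 - dn hit q)) +
        ((J : ℝ) + 2) * ∑ T ∈ P.powerset.filter (fun T : Finset ℕ => ∏ q ∈ T, q ≤ Z ^ (C0 * C0)),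
      ∏ q ∈ T, (cn hit q : ℝ)) := by
      convert h1
    linarith
  linarith

end Pool.Agent.Y346.SG.Sharp
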