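import Pool.Agent.Y346.SG.Stm
import Pool.Agent.Y346.SG.Sharp
import Pool.Agent.H951R4.OD.A1
import Pool.Agent.H951R4.OD.M
import Pool.Agent.W933.PQCC

set_option autoImplicit false

/-!
# Task CCS: sharp count for a given cofactor with a non exceptional exact prime divisor
-/

namespace Pool.Agent.Y346.SG.CCS

open Finset
open Pool.Agent.W114.PQ (Dat Pass)
open Pool.Agent.H951R4.OD (ch PI Ex mert_le sum_sq_inv ch_eq_neg_one_iff)
open Pool.Agent.W933.PQCC (mem_PI cnt_mul)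
open Pool.Agent.Y346.SG.Sharp
open scoped Classical

theorem sum_union_le (A B : Finset ℕ) (f : ℕ → ℝ) (hf : ∀ q, 0 ≤ f q) :
    ∑ q ∈ A ∪ B, f q ≤ ∑ q ∈ A, f q + ∑ q ∈ B, f q := by
  rw [← Finset.sum_union_inter]
  exact le_add_of_nonneg_right (Finset.sum_nonneg fun q _ => hf q)

theorem per_mul {D : Dat} (h : AxG D) {q : ℕ} (hq : q.Prime) (n j : ℕ) :
    D.T q (n + q ^ 2 * j) ↔ D.T q n := by
  induction j with
  | zero => simp
  | succ j ih =>
    rw [Nat.mul_succ, ← add_assoc, h.per q _ hq, ih]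

/-- the bad primes -/
def BD (D : Dat) (Y Q a t q : ℕ) : Prop :=
  (Y < q ∧ q ≤ Q) ∧ ¬ q ∣ D.c0 ∧ ch (t : ℤ) q = -1 ∧ ¬ q ∣ a

/-- the classes to be removed -/
def Hit (D : Dat) (Y Q a t q n : ℕ) : Prop := q ∣ n ∨ (BD D Y Q a t q ∧ D.T q (a * n))

theorem hit_per {D : Dat} (h : AxG D) (Y Q a t : ℕ) (q : ℕ) (hq : q.Prime) (n : ℕ) :
    Hit D Y Q a t q n ↔ Hit D Y Q a t q (n % q ^ 2) := by
  have e : n = n % q ^ 2 + q ^ 2 * (n / q ^ 2) := (Nat.mod_add_div n (q ^ 2)).symm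
  have h1 : q ∣ n ↔ q ∣ n % q ^ 2 := by
    conv_lhs => rw [e]
    rw [Nat.dvd_add_left]
    exact (dvd_pow_self q (by norm_num)).mul_right _
  have h2 : D.T q (a * n) ↔ D.T q (a * (n % q ^ 2)) := by
    conv_lhs => rw [e]
    have e2 : a * (n % q ^ 2 + q ^ 2 * (n / q ^ 2)) = a * (n % q ^ 2) + q ^ 2 * (a * (n / q ^ 2)) := by
      ring
    rw [e2]
    exact per_mul h hq _ _
  unfold Hit
  rw [h1, h2]

theorem dn_sum (hit : ℕ → ℕ → Prop) (q : ℕ) : dn hit q =
    (∑ n ∈ range (q ^ 2), (if hit q n then (1 : ℝ) else 0)) / (q : ℝ) ^ 2 := by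
  unfold dn cn
  rw [Finset.card_filter]
  push_cast
  rfl

theorem mean_eq1 {D : Dat} (Y Q a t : ℕ) {q : ℕ} (hq : q.Prime)
    (hb : ¬ BD D Y Q a t q) : dn (Hit D Y Q a t) q = 1 / q := by
  have e1 : ∀ n ∈ range (q ^ 2), (if Hit D Y Q a t q n then (1 : ℝ) else 0) =
      if q ∣ n then (1 : ℝ) else 0 := by
    intro n _
    have : Hit D Y Q a t q n ↔ q ∣ n := by
      constructor
      · rintro (h1 | ⟨h1, h2⟩)
        · exact h1
        · exact absurd h1 hb
      · exact Or.inl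
    simp only [this]
  have hq0 : (0 : ℝ) < q := by exact_mod_cast hq.pos
  rw [dn_sum, Finset.sum_congr rfl e1, cnt_mul hq.pos]
  field_simp

theorem mean_eq2 (mn : S_MN) {D : Dat} (h : AxG D) (Y Q a t : ℕ) {q : ℕ} (hq : q.Prime)
    (hb : BD D Y Q a t q) : dn (Hit D Y Q a t) q = 1 / q +
      (∑ n ∈ range (q ^ 2), (if D.T q (a * n) then (1 : ℝ) else 0)) / (q : ℝ) ^ 2 := by
  have e1 : ∀ n ∈ range (q ^ 2), (if Hit D Y Q a t q n then (1 : ℝ) else 0) =
      (if q ∣ n then (1 : ℝ) else 0) + (if D.T q (a * n) then (1 : ℝ) else 0) := by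
    intro n _
    by_cases h2 : D.T q (a * n)
    · have h3 := (mn D h q a hq hb.2.1).1 _ h2
      have h4 : ¬ q ∣ n := fun h4 => h3 (dvd_mul_of_dvd_right h4 _)
      have hh : Hit D Y Q a t q n := Or.inr ⟨hb, h2⟩
      rw [if_pos hh, if_neg h4, if_pos h2, zero_add]
    · have : Hit D Y Q a t q n ↔ q ∣ n := by
        constructor
        · rintro (h1 | ⟨_, h1⟩)
          · exact h1
          · exact absurd h1 h2
        · exact Or.inl
      rw [if_neg h2, add_zero]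
      simp only [this]
  have hq0 : (0 : ℝ) < q := by exact_mod_cast hq.pos
  rw [dn_sum, Finset.sum_congr rfl e1, Finset.sum_add_distrib, cnt_mul hq.pos, add_div]
  congr 1
  field_simp

theorem mean_low (mn : S_MN) {D : Dat} (h : AxG D) (Y Q a t : ℕ) {q : ℕ} (hq : q.Prime) :
    1 / (q : ℝ) + (if BD D Y Q a t q then D.ρ q / q else 0) -
      D.κ * (1 / (q : ℝ) ^ 2) ≤ dn (Hit D Y Q a t) q := by
  have hq0 : (0 : ℝ) < q := by exact_mod_cast hq.pos
  have hκ : 0 ≤ D.κ := by linarith [h.κ1]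
  have hk2 : 0 ≤ D.κ * (1 / (q : ℝ) ^ 2) := by positivity
  by_cases hb : BD D Y Q a t q
  · rw [mean_eq2 mn h Y Q a t hq hb, if_pos hb]
    have hcop : Nat.Coprime a q := ((Nat.Prime.coprime_iff_not_dvd hq).2 hb.2.2.2).symm
    have h1 := (abs_le.1 ((mn D h q a hq hb.2.1).2 hcop)).1
    rw [mul_one_div]
    linarith
  · rw [mean_eq1 Y Q a t hq hb, if_neg hb]
    linarith

theorem mean_up (mn : S_MN) {D : Dat} (h : AxG D) (Y Q a t : ℕ) {q : ℕ} (hq : q.Prime) :
    dn (Hit D Y Q a t) q ≤ (2 * D.κ + 1) / q := by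
  have hq0 : (0 : ℝ) < q := by exact_mod_cast hq.pos
  have hq1 : (1 : ℝ) ≤ q := by exact_mod_cast hq.one_lt.le
  have hκ : 0 ≤ D.κ := by linarith [h.κ1]
  have hk1 : 0 ≤ D.κ / (q : ℝ) := by positivity
  have e : (2 * D.κ + 1) / (q : ℝ) = 1 / q + D.κ / q + D.κ / q := by ring
  have hk2 : D.κ / (q : ℝ) ^ 2 ≤ D.κ / q := by
    apply div_le_div_of_nonneg_left hκ hq0
    nlinarith
  rw [e]
  by_cases hb : BD D Y Q a t q
  · rw [mean_eq2 mn h Y Q a t hq hb]
    have hcop : Nat.Coprime a q := ((Nat.Prime.coprime_iff_not_dvd hq).2 hb.2.2.2).symm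
    have h1 := (abs_le.1 ((mn D h q a hq hb.2.1).2 hcop)).2
    have hr1 : D.ρ q / q ≤ D.κ / (q : ℝ) :=
      div_le_div_of_nonneg_right (h.rho_up q).2 hq0.le
    linarith
  · rw [mean_eq1 Y Q a t hq hb]
    linarith

/-- the elements of the set are small or sifted -/
theorem sift {D : Dat} (h : AxG D) (X Y Q a t z C0 : ℕ) (hE : Ex D.c0 a t) :
    ({p : ℕ | p.Prime ∧ t < p ∧ p ≤ X / a ∧ Pass D (a * p)}.ncard : ℝ) ≤
      z + (((Icc 1 (X / a)).filter (fun n => ∀ q ∈ PI C0 z, ¬ Hit D Y Q a t q n)).card : ℝ) := by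
  set A : Set ℕ := {p : ℕ | p.Prime ∧ t < p ∧ p ≤ X / a ∧ Pass D (a * p)} with hA
  set F : Finset ℕ := (Icc 1 (X / a)).filter (fun n => ∀ q ∈ PI C0 z, ¬ Hit D Y Q a t q n) with hF
  have hsub : A ⊆ ((Icc 1 z ∪ F : Finset ℕ) : Set ℕ) := by
    intro p hp
    rw [mem_coe, mem_union, mem_Icc]
    rcases Nat.lt_or_ge z p with h1 | h1
    · right
      rw [hF, mem_filter, mem_Icc]
      refine ⟨⟨hp.1.one_lt.le, hp.2.2.1⟩, ?_⟩
      intro q hq
      obtain ⟨hpp, htp, -, hpass⟩ := hp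
      obtain ⟨⟨-, hqz⟩, hqp⟩ := mem_PI.1 hq
      rintro (h2 | ⟨⟨-, h2, h4, -⟩, h3⟩)
      · have := (Nat.prime_dvd_prime_iff_eq hqp hpp).1 h2
        omega
      · have hq2 : q ≠ 2 := by
          rintro rfl
          exact h2 h.two
        have h5 := (ch_eq_neg_one_iff t q hqp hq2).1 h4
        have hE' : Ex D.c0 (a * p) t := by
          refine ⟨hE.1, hE.2.1, dvd_mul_of_dvd_left hE.2.2.1 _, fun h5 => hE.2.2.2 ?_⟩
          have hcop : Nat.Coprime (t ^ 2) p :=
            Nat.Coprime.pow_left 2 ((Nat.coprime_primes hE.1 hpp).2 (by omega))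
          exact hcop.dvd_of_dvd_mul_right h5
        exact hpass.1 t q _ hE' hqp h2 h3 h5
    · left
      exact ⟨hp.1.one_lt.le, h1⟩
  have h1 := Set.ncard_le_ncard hsub (Finset.finite_toSet _)
  rw [Set.ncard_coe_finset] at h1
  have h2 := h1.trans (Finset.card_union_le _ _)
  rw [Nat.card_Icc, Nat.add_sub_cancel] at h2
  exact_mod_cast h2

/-- mass of the bad primes -/
theorem bad_low {D : Dat} (h : AxG D) : ∃ C : ℝ, 0 ≤ C ∧ ∀ Y Q a t z C0 : ℕ, 3 ≤ Y → Y ≤ Q → Q ≤ z →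
    1 ≤ a → a.primeFactors.card ≤ Y → t.Prime →
    |∑ q ∈ PI Y Q, cf D q * ch (t : ℤ) q / q| ≤ 1 / 2 →
    1 / 2 * Real.log (Real.log Q / Real.log Y) - D.κ * C0 - C ≤
      ∑ q ∈ (PI C0 z).filter (fun q => BD D Y Q a t q), D.ρ q / q := by
  obtain ⟨Cm, hCm⟩ := h.mert
  have hκ := h.κ1
  have hCm0 : 0 ≤ Cm := (abs_nonneg _).trans (hCm 2 2 le_rfl le_rfl)
  refine ⟨Cm + D.κ * D.c0 + 1 + 2 * D.κ, by positivity, ?_⟩
  intro Y Q a t z C0 hY hYQ hQz ha hom ht hsum
  have hκ0 : 0 ≤ D.κ := by linarith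
  have hPI : ∀ q ∈ PI Y Q, q.Prime ∧ Y < q ∧ q ≤ Q := by
    intro q hq
    obtain ⟨⟨h1, h2⟩, h3⟩ := mem_PI.1 hq
    exact ⟨h3, h1, h2⟩
  have hρ0 : ∀ q : ℕ, 0 ≤ D.ρ q / (q : ℝ) := fun q => div_nonneg (h.rho_up q).1 (Nat.cast_nonneg q)
  have hρκ : ∀ q ∈ PI Y Q, D.ρ q / (q : ℝ) ≤ D.κ / q := fun q _ =>
    div_le_div_of_nonneg_right (h.rho_up q).2 (Nat.cast_nonneg q)
  -- the sum of `cf`
  have h1 : ∑ q ∈ PI Y Q, D.ρ q / q ≤ ∑ q ∈ PI Y Q, cf D q / q + D.κ * D.c0 := by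
    have e : ∀ q ∈ PI Y Q, D.ρ q / (q : ℝ) ≤ cf D q / q + (if q ∣ D.c0 then D.κ else 0) := by
      intro q hq
      unfold cf
      have hq1 : (1 : ℝ) ≤ q := by exact_mod_cast (hPI q hq).1.one_lt.le
      split_ifs with hd
      · have := hρκ q hq
        have h2 : D.κ / (q : ℝ) ≤ D.κ := div_le_self hκ0 hq1
        rw [zero_div, zero_add]
        linarith
      · rw [add_zero]
    refine (Finset.sum_le_sum e).trans ?_
    rw [Finset.sum_add_distrib]
    apply add_le_add le_rfl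
    rw [← Finset.sum_filter, Finset.sum_const, nsmul_eq_mul, mul_comm]
    apply mul_le_mul_of_nonneg_left _ hκ0
    have h3 : (PI Y Q).filter (fun q => q ∣ D.c0) ⊆ Ioc 0 D.c0 := by
      intro q hq
      rw [mem_filter] at hq
      rw [mem_Ioc]
      exact ⟨(hPI q hq.1).1.pos, Nat.le_of_dvd h.c0_pos hq.2⟩
    have h4 := Finset.card_le_card h3
    rw [Nat.card_Ioc, Nat.sub_zero] at h4
    exact_mod_cast h4
  -- mertens
  have hlY : 1 ≤ Real.log Y := by
    have hY3 : (3 : ℝ) ≤ Y := by exact_mod_cast hY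
    rw [Real.le_log_iff_exp_le (by linarith)]
    have := Real.exp_one_lt_d9
    linarith
  have hlQ : Real.log Y ≤ Real.log Q := by
    have hY3 : (3 : ℝ) ≤ Y := by exact_mod_cast hY
    exact Real.log_le_log (by linarith) (by exact_mod_cast hYQ)
  have hlr : 0 ≤ Real.log (Real.log Q / Real.log Y) := by
    apply Real.log_nonneg
    rw [le_div_iff₀ (by linarith)]
    linarith
  have h2 := (abs_le.1 (hCm Y Q (by omega) hYQ)).1
  have h3 : Real.log (Real.log Q / Real.log Y) ≤ D.τ * Real.log (Real.log Q / Real.log Y) :=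
    le_mul_of_one_le_left hlr h.τ1
  -- pointwise
  have h4 : ∀ q ∈ PI Y Q, (cf D q / q - cf D q * ch (t : ℤ) q / q) / 2 ≤
      (if BD D Y Q a t q then D.ρ q / (q : ℝ) else 0) + (if q = t then D.κ else 0) +
        (if q ∣ a then D.κ / (q : ℝ) else 0) := by
    intro q hq
    obtain ⟨hqp, hYq, hqQ⟩ := hPI q hq
    have hq1 : (1 : ℝ) ≤ q := by exact_mod_cast hqp.one_lt.le
    have hq2 : q ≠ 2 := by omega
    have t1 : 0 ≤ (if BD D Y Q a t q then D.ρ q / (q : ℝ) else 0) := by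
      split_ifs
      · exact hρ0 q
      · exact le_rfl
    have t2 : 0 ≤ (if q = t then D.κ else 0) := by split_ifs <;> linarith
    have t3 : 0 ≤ (if q ∣ a then D.κ / (q : ℝ) else 0) := by
      split_ifs
      · positivity
      · exact le_rfl
    have e : (cf D q / q - cf D q * ch (t : ℤ) q / q) / 2 = cf D q * (1 - ch (t : ℤ) q) / 2 / q := by
      ring
    rw [e]
    by_cases hc : q ∣ D.c0
    · have : cf D q = 0 := if_pos hc
      rw [this]
      simp only [zero_mul, zero_div]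
      linarith
    · have hcf : cf D q = D.ρ q := if_neg hc
      rw [hcf]
      rcases Pool.Agent.H951R4.OD.ch_val (t : ℤ) q with hv | hv | hv
      · -- zero
        have hqt : q = t := by
          by_contra hne
          exact Pool.Agent.H951R4.OD.ch_prime_ne_zero t q ht hqp hq2 (fun h => hne h.symm) hv
        rw [if_pos hqt, hv]
        have h5 : D.ρ q * (1 - 0) / 2 / (q : ℝ) ≤ D.κ := by
          have h6 := (h.rho_up q).2
          have h7 := (h.rho_up q).1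
          rw [div_le_iff₀ (by linarith)]
          nlinarith
        linarith
      · rw [hv]
        simp only [sub_self, mul_zero, zero_div]
        linarith
      · rw [hv]
        have h5 : D.ρ q * (1 - -1) / 2 / (q : ℝ) = D.ρ q / q := by ring
        rw [h5]
        by_cases ha' : q ∣ a
        · rw [if_pos ha']
          have := hρκ q hq
          linarith
        · have hh : BD D Y Q a t q := ⟨⟨hYq, hqQ⟩, hc, hv, ha'⟩
          rw [if_pos hh]
          linarith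
  have h5 := Finset.sum_le_sum h4
  rw [← Finset.sum_div, Finset.sum_sub_distrib, Finset.sum_add_distrib, Finset.sum_add_distrib] at h5
  have h6 : ∑ q ∈ PI Y Q, (if q = t then D.κ else 0) ≤ D.κ := by
    rw [Finset.sum_ite_eq' ]
    split_ifs <;> linarith
  have h7 : ∑ q ∈ PI Y Q, (if q ∣ a then D.κ / (q : ℝ) else 0) ≤ D.κ := by
    rw [← Finset.sum_filter]
    have hY0 : (0 : ℝ) < Y := by
      have : 0 < Y := by omega
      exact_mod_cast this
    have h8 : ∀ q ∈ (PI Y Q).filter (fun q => q ∣ a), D.κ / (q : ℝ) ≤ D.κ / Y := by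
      intro q hq
      rw [mem_filter] at hq
      apply div_le_div_of_nonneg_left hκ0 hY0
      exact_mod_cast (hPI q hq.1).2.1.le
    refine (Finset.sum_le_card_nsmul _ _ _ h8).trans ?_
    rw [nsmul_eq_mul]
    have h9 : ((PI Y Q).filter (fun q => q ∣ a)).card ≤ Y := by
      refine le_trans (Finset.card_le_card ?_) hom
      intro q hq
      rw [mem_filter] at hq
      exact Nat.mem_primeFactors.2 ⟨(hPI q hq.1).1, hq.2, by omega⟩
    have h10 : (((PI Y Q).filter (fun q => q ∣ a)).card : ℝ) ≤ Y := by exact_mod_cast h9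
    calc (((PI Y Q).filter (fun q => q ∣ a)).card : ℝ) * (D.κ / Y) ≤ Y * (D.κ / Y) :=
          mul_le_mul_of_nonneg_right h10 (by positivity)
      _ = D.κ := by field_simp
  -- from `PI Y Q` to `PI C0 z`
  have h8 : ∑ q ∈ PI Y Q, (if BD D Y Q a t q then D.ρ q / (q : ℝ) else 0) ≤
      ∑ q ∈ (PI C0 z).filter (fun q => BD D Y Q a t q), D.ρ q / q + D.κ * C0 := by
    rw [← Finset.sum_filter]
    have h9 : (PI Y Q).filter (fun q => BD D Y Q a t q) ⊆
        (PI C0 z).filter (fun q => BD D Y Q a t q) ∪ Ioc 0 C0 := by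
      intro q hq
      rw [mem_filter] at hq
      obtain ⟨hqp, hYq, hqQ⟩ := hPI q hq.1
      rw [mem_union, mem_filter, mem_Ioc, mem_PI]
      rcases Nat.lt_or_ge C0 q with h10 | h10
      · exact Or.inl ⟨⟨⟨h10, hqQ.trans hQz⟩, hqp⟩, hq.2⟩
      · exact Or.inr ⟨hqp.pos, h10⟩
    refine (Finset.sum_le_sum_of_subset_of_nonneg h9 fun q _ _ => hρ0 q).trans ?_
    refine (sum_union_le _ _ _ (fun q => hρ0 q)).trans ?_
    apply add_le_add le_rfl
    have h11 : ∀ q ∈ Ioc 0 C0, D.ρ q / (q : ℝ) ≤ D.κ := by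
      intro q hq
      rw [mem_Ioc] at hq
      have hq1 : (1 : ℝ) ≤ q := by exact_mod_cast hq.1
      exact (div_le_self (h.rho_up q).1 hq1).trans (h.rho_up q).2
    refine (Finset.sum_le_card_nsmul _ _ _ h11).trans ?_
    rw [Nat.card_Ioc, Nat.sub_zero, nsmul_eq_mul, mul_comm]
  have h12 := (abs_le.1 hsum).2
  nlinarith

theorem ccs (mn : S_MN) : S_CCS := by
  intro D h
  obtain ⟨Cb, hCb, hbad⟩ := bad_low h
  obtain ⟨C1, hC1, hm⟩ := mert_le
  obtain ⟨C2, hC2, hs⟩ := sum_sq_inv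
  have hκ1 := h.κ1
  have hκ0 : 0 ≤ D.κ := by linarith
  obtain ⟨C0, hC0, hsharp⟩ := sharp ⌈2 * D.κ + 1⌉₊
  set E : ℕ := 32 * (C0 * C0) with hE
  have hE32 : 32 ≤ E := by
    have : 1 ≤ C0 * C0 := Nat.one_le_iff_ne_zero.2 (by positivity)
    omega
  have hE0 : (0 : ℝ) < E := by
    have : 0 < E := by omega
    exact_mod_cast this
  set C' : ℝ := C1 + D.κ * C2 + D.κ * C0 + Cb + C0 with hC'
  have hC'0 : 0 ≤ C' := by positivity
  set K : ℝ := 8 * E * Real.exp C' + 64 with hK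
  refine ⟨⌈K⌉₊ + 4 * E, by omega, ?_⟩
  intro X Y Q a t hY hYQ hQX ha haX hom hEx hsum
  have hY3 : (3 : ℝ) ≤ Y := by exact_mod_cast hY
  have hQ3 : 3 ≤ Q := hY.trans hYQ
  have hQ3r : (3 : ℝ) ≤ Q := by exact_mod_cast hQ3
  have hexp := Real.exp_one_lt_d9
  have hlY : 1 ≤ Real.log Y := by
    rw [Real.le_log_iff_exp_le (by linarith)]; linarith
  have hlYQ : Real.log Y ≤ Real.log Q := Real.log_le_log (by linarith) (by exact_mod_cast hYQ)
  have hQX' : Q ^ (4 * E) ≤ X := le_trans (Nat.pow_le_pow_right (by omega) (by omega)) hQX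
  -- `N`
  set N : ℕ := X / a with hN
  have hNX : X ≤ N ^ 2 := by
    by_contra hcon
    push Not at hcon
    have h1 : X < a * (N + 1) := Nat.lt_mul_div_succ X ha
    have h3 : 3 ^ 128 ≤ X := by
      refine le_trans ?_ hQX'
      calc 3 ^ 128 ≤ Q ^ 128 := Nat.pow_le_pow_left hQ3 _
        _ ≤ Q ^ (4 * E) := Nat.pow_le_pow_right (by omega) (by omega)
    -- `X ^ 4 < a ^ 4 (N + 1) ^ 4 ≤ X (N + 1) ^ 4`
    have h4 : X ^ 4 < X * (N + 1) ^ 4 := by
      calc X ^ 4 < (a * (N + 1)) ^ 4 := Nat.pow_lt_pow_left h1 (by norm_num)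
        _ = a ^ 4 * (N + 1) ^ 4 := by ring
        _ ≤ X * (N + 1) ^ 4 := Nat.mul_le_mul_right _ haX
    have h5 : X ^ 3 < (N + 1) ^ 4 := by
      have : X * X ^ 3 < X * (N + 1) ^ 4 := by
        calc X * X ^ 3 = X ^ 4 := by ring
          _ < _ := h4
      exact lt_of_mul_lt_mul_left this (Nat.zero_le _)
    -- `(N + 1) ^ 4 ≤ 16 N ^ 4 < 16 X ^ 2`
    have hN1 : 1 ≤ N := by
      by_contra h0
      have h0' : N = 0 := Nat.eq_zero_of_not_pos h0
      rw [h0'] at h5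
      have : 1 ≤ X ^ 3 := Nat.one_le_pow _ _ (by omega)
      omega
    have h6 : (N + 1) ^ 4 ≤ 16 * (N ^ 2) ^ 2 := by
      calc (N + 1) ^ 4 ≤ (2 * N) ^ 4 := Nat.pow_le_pow_left (by omega) 4
        _ = 16 * (N ^ 2) ^ 2 := by ring
    have h7 : (N ^ 2) ^ 2 ≤ X ^ 2 := Nat.pow_le_pow_left hcon.le 2
    have h8 : X ^ 3 < 16 * X ^ 2 := by omega
    have h9 : X * X ^ 2 < 16 * X ^ 2 := by
      calc X * X ^ 2 = X ^ 3 := by ring
        _ < _ := h8
    have h10 := lt_of_mul_lt_mul_right h9 (Nat.zero_le _)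
    have h11 : (16 : ℕ) ≤ 3 ^ 128 := by norm_num
    omega
  have hQN : Q ^ E ≤ N := by
    have h1 : (Q ^ E) ^ 2 ≤ N ^ 2 := by
      refine le_trans ?_ hNX
      refine le_trans ?_ hQX'
      rw [← pow_mul]
      exact Nat.pow_le_pow_right (by omega) (by omega)
    exact (Nat.pow_le_pow_iff_left (by norm_num)).1 h1
  have hN3 : 3 ≤ N := by
    refine le_trans ?_ hQN
    calc 3 ≤ Q := hQ3
      _ ≤ Q ^ E := Nat.le_self_pow (by omega) _
  have hN0 : (0 : ℝ) < N := by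
    have : 0 < N := by omega
    exact_mod_cast this
  have hN3r : (3 : ℝ) ≤ N := by exact_mod_cast hN3
  -- `z`
  set z : ℕ := ⌊(N : ℝ) ^ ((1 : ℝ) / E)⌋₊ with hz
  have hz1 : (z : ℝ) ≤ (N : ℝ) ^ ((1 : ℝ) / E) := Nat.floor_le (Real.rpow_nonneg hN0.le _)
  have hz2 : (N : ℝ) ^ ((1 : ℝ) / E) < z + 1 := Nat.lt_floor_add_one _
  have hrE : ((N : ℝ) ^ ((1 : ℝ) / E)) ^ E = N := by
    rw [← Real.rpow_natCast, ← Real.rpow_mul hN0.le, one_div_mul_cancel hE0.ne', Real.rpow_one]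
  have hzE : z ^ E ≤ N := by
    have h1 : (z : ℝ) ^ E ≤ N := by
      rw [← hrE]
      exact pow_le_pow_left₀ (Nat.cast_nonneg _) hz1 _
    exact_mod_cast h1
  have hQz : Q ≤ z := by
    apply Nat.le_floor
    have h1 : (Q : ℝ) ^ E ≤ N := by exact_mod_cast hQN
    by_contra hcon
    push Not at hcon
    have h2 : ((N : ℝ) ^ ((1 : ℝ) / E)) ^ E < (Q : ℝ) ^ E :=
      pow_lt_pow_left₀ hcon (Real.rpow_nonneg hN0.le _) (by omega)
    rw [hrE] at h2
    linarith
  have hz3 : 3 ≤ z := hQ3.trans hQz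
  have hz3r : (3 : ℝ) ≤ z := by exact_mod_cast hz3
  have hNz : (N : ℝ) ≤ (z : ℝ) ^ (2 * E) := by
    calc (N : ℝ) = ((N : ℝ) ^ ((1 : ℝ) / E)) ^ E := hrE.symm
      _ ≤ ((z : ℝ) ^ 2) ^ E := by
          apply pow_le_pow_left₀ (Real.rpow_nonneg hN0.le _)
          nlinarith
      _ = (z : ℝ) ^ (2 * E) := (pow_mul _ _ _).symm
  have hlz : 1 ≤ Real.log z := by
    rw [Real.le_log_iff_exp_le (by linarith)]; linarith
  have hlN : Real.log N ≤ 2 * E * Real.log z := by
    have := Real.log_le_log hN0 hNz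
    rw [Real.log_pow] at this
    push_cast at this
    exact this
  have hX0 : (0 : ℝ) < X := by
    have h1 : 1 ≤ X := le_trans (Nat.one_le_pow _ _ (by omega)) hQX'
    exact_mod_cast (by omega : 0 < X)
  have hlX : Real.log X ≤ 2 * Real.log N := by
    have h1 : (X : ℝ) ≤ (N : ℝ) ^ 2 := by exact_mod_cast hNX
    have := Real.log_le_log hX0 h1
    rw [Real.log_pow] at this
    exact_mod_cast this
  have hlN1 : 1 ≤ Real.log N := by
    rw [Real.le_log_iff_exp_le (by linarith)]; linarith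
  have hlX0 : 0 ≤ Real.log X := Real.log_natCast_nonneg X
  -- the sieve
  have hup := hsharp N z (by omega) hzE (Hit D Y Q a t) (fun q hq n => hit_per h Y Q a t q hq n)
    (fun q hq => by
      refine (mean_up mn h Y Q a t hq).trans ?_
      apply div_le_div_of_nonneg_right _ (Nat.cast_nonneg q)
      exact Nat.le_ceil _)
  have hsift := sift h X Y Q a t z C0 hEx
  rw [← hN] at hsift
  have hPI : ∀ q ∈ PI C0 z, q.Prime := fun q hq => (mem_PI.1 hq).2
  have hmean := Finset.sum_le_sum (fun q (hq : q ∈ PI C0 z) => mean_low mn h Y Q a t (hPI q hq))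
  rw [Finset.sum_sub_distrib, Finset.sum_add_distrib, ← Finset.sum_filter, ← Finset.mul_sum] at hmean
  have hb := hbad Y Q a t z C0 hY hYQ hQz ha hom hEx.1 hsum
  have hs2 := mul_le_mul_of_nonneg_left (hs (PI C0 z)) hκ0
  have hm2 := (abs_le.1 (hm z hz3)).1
  have hsmall : ∑ q ∈ PI 0 z, (1 : ℝ) / q ≤ ∑ q ∈ PI C0 z, (1 : ℝ) / q + C0 := by
    have h9 : PI 0 z ⊆ PI C0 z ∪ Ioc 0 C0 := by
      intro q hq
      obtain ⟨⟨h1, h2⟩, h3⟩ := mem_PI.1 hq
      rw [mem_union, mem_PI, mem_Ioc]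
      rcases Nat.lt_or_ge C0 q with h10 | h10
      · exact Or.inl ⟨⟨h10, h2⟩, h3⟩
      · exact Or.inr ⟨h1, h10⟩
    refine (Finset.sum_le_sum_of_subset_of_nonneg h9 fun q _ _ => by positivity).trans ?_
    refine (sum_union_le _ _ _ (fun q => by positivity)).trans ?_
    apply add_le_add le_rfl
    have h11 : ∀ q ∈ Ioc 0 C0, (1 : ℝ) / (q : ℝ) ≤ 1 := by
      intro q hq
      rw [mem_Ioc] at hq
      have hq1 : (1 : ℝ) ≤ q := by exact_mod_cast hq.1
      exact div_le_self zero_le_one hq1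
    refine (Finset.sum_le_card_nsmul _ _ _ h11).trans ?_
    rw [Nat.card_Ioc, Nat.sub_zero, nsmul_eq_mul, mul_one]
  have hlow : Real.log (Real.log z) + 1 / 2 * Real.log (Real.log Q / Real.log Y) - C' ≤
      ∑ q ∈ PI C0 z, dn (Hit D Y Q a t) q := by
    rw [hC']
    linarith
  set R : ℝ := (Real.log Y / Real.log Q) ^ (1 / 2 : ℝ) with hR
  have hR0 : 0 < R := Real.rpow_pos_of_pos (by apply div_pos <;> linarith) _
  have hexpo : Real.exp (-∑ q ∈ PI C0 z, dn (Hit D Y Q a t) q) ≤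
      Real.exp C' * (R / Real.log z) := by
    have e1 : R / Real.log z = Real.exp (-(Real.log (Real.log z) +
        1 / 2 * Real.log (Real.log Q / Real.log Y))) := by
      rw [neg_add, Real.exp_add, Real.exp_neg, Real.exp_log (by linarith), hR,
        Real.rpow_def_of_pos (by apply div_pos <;> linarith), div_eq_mul_inv, mul_comm]
      congr 2
      rw [← inv_div, Real.log_inv]
      ring
    rw [e1, ← Real.exp_add]
    apply Real.exp_le_exp.2
    linarith
  -- the main term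
  have hNa : (N : ℝ) ≤ (X : ℝ) / a := Nat.cast_div_le
  have hmain : 2 * (N * Real.exp (-∑ q ∈ PI C0 z, dn (Hit D Y Q a t) q)) * Real.log X ≤
      8 * E * Real.exp C' * (N * R) := by
    have h1 : Real.log X ≤ 4 * E * Real.log z := by linarith
    calc 2 * (N * Real.exp (-∑ q ∈ PI C0 z, dn (Hit D Y Q a t) q)) * Real.log X
        ≤ 2 * (N * (Real.exp C' * (R / Real.log z))) * (4 * E * Real.log z) := by
          apply mul_le_mul _ h1 hlX0 (by positivity)
          apply mul_le_mul_of_nonneg_left _ (by norm_num)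
          exact mul_le_mul_of_nonneg_left hexpo hN0.le
      _ = 8 * E * Real.exp C' * (N * R) := by
          field_simp
          ring
  -- the small terms
  have hRN : 1 / Real.log N ≤ R := by
    have h1 : Real.log Q ≤ Real.log N := by
      apply Real.log_le_log (by linarith)
      have h2 : Q ≤ N := le_trans (Nat.le_self_pow (by omega) _) hQN
      exact_mod_cast h2
    have h2 : 1 / Real.log N ≤ Real.log Y / Real.log Q := by
      rw [div_le_div_iff₀ (by linarith) (by linarith)]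
      nlinarith
    have h3 : Real.log Y / Real.log Q ≤ 1 := by
      rw [div_le_one (by linarith)]
      exact hlYQ
    refine h2.trans ?_
    have h4 : 0 ≤ Real.log Y / Real.log Q := by
      apply div_nonneg <;> linarith
    have h5 := Real.rpow_le_rpow_of_exponent_ge' h4 h3 (by norm_num : (0 : ℝ) ≤ 1 / 2)
      (by norm_num : (1 / 2 : ℝ) ≤ 1)
    rw [Real.rpow_one] at h5
    exact h5
  have hsq : Real.sqrt N * Real.sqrt N = N := Real.mul_self_sqrt hN0.le
  have hsq0 : 0 ≤ Real.sqrt N := Real.sqrt_nonneg _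
  have hzs : (z : ℝ) ≤ Real.sqrt N := by
    apply Real.le_sqrt_of_sq_le
    have h1 : z ^ 2 ≤ z ^ E := Nat.pow_le_pow_right (by omega) (by omega)
    exact_mod_cast h1.trans hzE
  have hlog2 : Real.log N ^ 2 ≤ 16 * Real.sqrt N := by
    have h1 := Real.log_le_rpow_div hN0.le (show (0 : ℝ) < 1 / 4 by norm_num)
    have h2 : (N : ℝ) ^ (1 / 4 : ℝ) * (N : ℝ) ^ (1 / 4 : ℝ) = Real.sqrt N := by
      rw [← Real.rpow_add hN0, Real.sqrt_eq_rpow]
      norm_num
    have h3 : Real.log N ≤ 4 * (N : ℝ) ^ (1 / 4 : ℝ) := by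
      refine h1.trans (le_of_eq ?_)
      ring
    have h4 : 0 ≤ (N : ℝ) ^ (1 / 4 : ℝ) := Real.rpow_nonneg hN0.le _
    nlinarith
  have hsmall2 : (z + Real.sqrt N) * Real.log X ≤ 64 * (N * R) := by
    have h1 : (z + Real.sqrt N) * Real.log X ≤ (2 * Real.sqrt N) * (2 * Real.log N) := by
      apply mul_le_mul (by linarith) hlX hlX0 (by positivity)
    refine h1.trans ?_
    have h2 : 2 * Real.sqrt N * (2 * Real.log N) ≤ 64 * (N * (1 / Real.log N)) := by
      rw [mul_one_div, ← mul_div_assoc, le_div_iff₀ (by linarith)]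
      calc 2 * Real.sqrt N * (2 * Real.log N) * Real.log N = 4 * Real.sqrt N * (Real.log N ^ 2) := by
            ring
        _ ≤ 4 * Real.sqrt N * (16 * Real.sqrt N) :=
            mul_le_mul_of_nonneg_left hlog2 (by positivity)
        _ = 64 * (Real.sqrt N * Real.sqrt N) := by ring
        _ = 64 * N := by rw [hsq]
    refine h2.trans ?_
    apply mul_le_mul_of_nonneg_left _ (by norm_num)
    exact mul_le_mul_of_nonneg_left hRN hN0.le
  have hcard : (((Icc 1 N).filter (fun n => ∀ q ∈ PI C0 z, ¬ Hit D Y Q a t q n)).card : ℝ) ≤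
      2 * (N * Real.exp (-∑ q ∈ PI C0 z, dn (Hit D Y Q a t) q)) + Real.sqrt N := hup
  have htot : ({p : ℕ | p.Prime ∧ t < p ∧ p ≤ N ∧ Pass D (a * p)}.ncard : ℝ) * Real.log X ≤
      K * (N * R) := by
    have h1 : ({p : ℕ | p.Prime ∧ t < p ∧ p ≤ N ∧ Pass D (a * p)}.ncard : ℝ) ≤
        z + (2 * (N * Real.exp (-∑ q ∈ PI C0 z, dn (Hit D Y Q a t) q)) + Real.sqrt N) :=
      hsift.trans (add_le_add le_rfl hcard)
    calc ({p : ℕ | p.Prime ∧ t < p ∧ p ≤ N ∧ Pass D (a * p)}.ncard : ℝ) * Real.log X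
        ≤ (z + (2 * (N * Real.exp (-∑ q ∈ PI C0 z, dn (Hit D Y Q a t) q)) + Real.sqrt N)) *
          Real.log X := mul_le_mul_of_nonneg_right h1 hlX0
      _ = 2 * (N * Real.exp (-∑ q ∈ PI C0 z, dn (Hit D Y Q a t) q)) * Real.log X +
          (z + Real.sqrt N) * Real.log X := by ring
      _ ≤ 8 * E * Real.exp C' * (N * R) + 64 * (N * R) := add_le_add hmain hsmall2
      _ = K * (N * R) := by rw [hK]; ring
  refine htot.trans ?_
  have hKle : K ≤ ((⌈K⌉₊ + 4 * E : ℕ) : ℝ) := by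
    push_cast
    have := Nat.le_ceil K
    have : (0 : ℝ) ≤ 4 * E := by positivity
    linarith
  calc K * (N * R) ≤ ((⌈K⌉₊ + 4 * E : ℕ) : ℝ) * ((X : ℝ) / a * R) := by
        apply mul_le_mul hKle _ (by positivity) (by positivity)
        exact mul_le_mul_of_nonneg_right hNa hR0.le
    _ = _ := by ring

end Pool.Agent.Y346.SG.CCS
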