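import Pool.Agent.Y346.SG.Stm
import Pool.Agent.W475.PQ.Main

set_option autoImplicit false

/-!
# Project SG: the main theorem from the parts (adapted from `Pool.Agent.W475.PQ.Main`)
-/

namespace Pool.Agent.Y346.SG

open Finset Filter Topology
open Pool.Agent.H951R4.OD (ch PI Ex)
open Pool.Agent.W114.PQ (Dat Pass EP wX Dk S_E)
open Pool.Agent.W475.PQ (exists_k)

theorem main_of (a : S_A) (b : S_B) (cd : S_CD) (e : S_E) : S_MAIN := by
  classical
  intro D hD hτ
  obtain ⟨k, hk1, hk⟩ := exists_k D hτ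
  have hA := a D hD k hk1 hk
  have hB := b D hD k
  have hCD := cd D hD k
  have hE := e D.c0 hD.c0_pos k
  have hsum := ((hA.add hB).add hCD).add hE
  simp only [add_zero] at hsum
  refine squeeze_zero ?_ ?_ hsum
  · intro X
    have h1 : 0 ≤ Real.log (X : ℝ) := Real.log_natCast_nonneg X
    positivity
  · intro X
    have h1 : 0 ≤ Real.log (X : ℝ) := Real.log_natCast_nonneg X
    rw [← add_div, ← add_mul, ← add_div, ← add_mul, ← add_div, ← add_mul]
    apply div_le_div_of_nonneg_right _ (by positivity)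
    apply mul_le_mul_of_nonneg_right _ h1
    set SA : Set ℕ := {n : ℕ | 1 ≤ n ∧ n ≤ X ∧ Pass D n ∧ k ≤ (EP D.c0 (wX X) n).card} with hSA
    set SB : Set ℕ := {n : ℕ | 1 ≤ n ∧ n ≤ X ∧ Pass D n ∧ (EP D.c0 (wX X) n).card < k ∧
      ∃ r r' : ℕ, wX X < r ∧ r < r' ∧ Ex D.c0 n r ∧ Ex D.c0 n r'} with hSB
    set SC : Set ℕ := {n : ℕ | 1 ≤ n ∧ n ≤ X ∧ Pass D n ∧ ¬ n.Prime ∧
      (EP D.c0 (wX X) n).card < k ∧
      ∃ r : ℕ, wX X < r ∧ Ex D.c0 n r ∧ ∀ r' : ℕ, wX X < r' → Ex D.c0 n r' → r' = r} with hSC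
    set SE : Set ℕ := {n : ℕ | 1 ≤ n ∧ n ≤ X ∧ (EP D.c0 (wX X) n).card < k ∧
      ∀ r : ℕ, wX X < r → ¬ Ex D.c0 n r} with hSE
    have hfin : ∀ S : Set ℕ, (∀ n ∈ S, n ≤ X) → S.Finite := fun S hS =>
      (Set.finite_Iic X).subset hS
    have fA : SA.Finite := hfin _ fun n hn => hn.2.1
    have fB : SB.Finite := hfin _ fun n hn => hn.2.1
    have fC : SC.Finite := hfin _ fun n hn => hn.2.1
    have fE : SE.Finite := hfin _ fun n hn => hn.2.1
    have hsub : {n : ℕ | 1 ≤ n ∧ n ≤ X ∧ Pass D n ∧ ¬ n.Prime} ⊆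
        ((SA ∪ SB) ∪ SC) ∪ SE := by
      rintro n ⟨h1n, hnX, hP, hnp⟩
      by_cases hcard : k ≤ (EP D.c0 (wX X) n).card
      · exact Or.inl (Or.inl (Or.inl ⟨h1n, hnX, hP, hcard⟩))
      · have hcard' : (EP D.c0 (wX X) n).card < k := by omega
        by_cases hex : ∃ r : ℕ, wX X < r ∧ Ex D.c0 n r
        · obtain ⟨r, hr, hrE⟩ := hex
          by_cases huniq : ∀ r' : ℕ, wX X < r' → Ex D.c0 n r' → r' = r
          · exact Or.inl (Or.inr ⟨h1n, hnX, hP, hnp, hcard', r, hr, hrE, huniq⟩)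
          · push Not at huniq
            obtain ⟨r', hr', hr'E, hne⟩ := huniq
            rcases lt_or_gt_of_ne hne with hlt | hgt
            · exact Or.inl (Or.inl (Or.inr
                ⟨h1n, hnX, hP, hcard', r', r, hr', hlt, hr'E, hrE⟩))
            · exact Or.inl (Or.inl (Or.inr
                ⟨h1n, hnX, hP, hcard', r, r', hr, hgt, hrE, hr'E⟩))
        · push Not at hex
          exact Or.inr ⟨h1n, hnX, hcard', hex⟩
    have hle : {n : ℕ | 1 ≤ n ∧ n ≤ X ∧ Pass D n ∧ ¬ n.Prime}.ncard ≤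
        SA.ncard + SB.ncard + SC.ncard + SE.ncard := by
      refine (Set.ncard_le_ncard hsub (((fA.union fB).union fC).union fE)).trans ?_
      refine (Set.ncard_union_le _ _).trans (Nat.add_le_add_right ?_ _)
      refine (Set.ncard_union_le _ _).trans (Nat.add_le_add_right ?_ _)
      exact Set.ncard_union_le _ _
    exact_mod_cast hle

end Pool.Agent.Y346.SG
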