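import Pool.Agent.W114.PQ.Stm

set_option autoImplicit false

/-!
# Project SG: difference sets with Singer parameters, all odd `L ∣ m`

Almost all orders are prime powers.  `AxG` is the structure `Ax` of project PQ
(`Pool.Agent.W114.PQ.Stm`) without the comparison with a quadratic character; every task is one
`Prop` below (`S_...`).
-/

namespace Pool.Agent.Y346.SG

open Finset Filter Topology
open Pool.Agent.H951R4.OD (ch PI Ex)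
open Pool.Agent.W114.PQ (Dat Pass EP wX Dk datS S_SV S_L2 S_GS S_GD)

open scoped Classical in
/-- the axioms for a family of tests -/
structure AxG (D : Dat) : Prop where
  c0_pos : 0 < D.c0
  two : 2 ∣ D.c0
  m_odd : Odd D.m
  κ1 : 1 ≤ D.κ
  τ1 : 1 ≤ D.τ
  β01 : D.β = 0 ∨ D.β = 1
  rho_up : ∀ q : ℕ, 0 ≤ D.ρ q ∧ D.ρ q ≤ D.κ
  per : ∀ q n : ℕ, q.Prime → (D.T q (n + q ^ 2) ↔ D.T q n)
  ord : ∀ q n : ℕ, q.Prime → ¬ q ∣ D.c0 → D.T q n → (n : ZMod q) ^ D.m = 1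
  cnt : ∀ q : ℕ, q.Prime → ¬ q ∣ D.c0 →
    |(((range (q ^ 2)).filter (fun n => D.T q n)).card : ℝ) - q * D.ρ q| ≤ D.κ
  mert : ∃ C : ℝ, ∀ y z : ℕ, 2 ≤ y → y ≤ z →
    |∑ q ∈ PI y z, D.ρ q / q - D.τ * Real.log (Real.log z / Real.log y)| ≤ C
  low : ∀ g : ℕ, 2 ≤ g → ∃ δ C : ℝ, 0 < δ ∧ ∀ z : ℕ, 3 ≤ z → δ * Real.log (Real.log z) - C ≤
    ∑ q ∈ (PI 2 z).filter (fun q => ¬ q ∣ D.c0 ∧ ∃ j : ℕ, (g : ZMod q) ^ j = -1), D.ρ q / q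

/-! ## Statements proved as in project PQ -/

open scoped Classical in
/-- Task MN (means). -/
def S_MN : Prop := ∀ D : Dat, AxG D → ∀ q a : ℕ, q.Prime → ¬ q ∣ D.c0 →
  (∀ n : ℕ, D.T q n → ¬ q ∣ n) ∧
  (Nat.Coprime a q → |(∑ n ∈ range (q ^ 2), (if D.T q (a * n) then (1 : ℝ) else 0)) / (q : ℝ) ^ 2 -
    D.ρ q / q| ≤ D.κ / (q : ℝ) ^ 2)

open scoped Classical in
/-- Task BK: the primes modulo which one of `k` given primes is a nonresidue. -/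
def S_BK : Prop := ∀ D : Dat, AxG D → ∀ k : ℕ, ∃ C : ℝ, 3 ≤ C ∧ ∀ ps : Finset ℕ, ps.card = k →
  (∀ p ∈ ps, p.Prime) → ∀ y z : ℕ, C * (∏ p ∈ ps, (p : ℝ)) ^ 2 ≤ y → y ≤ z →
    (D.τ - D.κ / 2 ^ k) * Real.log (Real.log z / Real.log y) - C ≤
      ∑ q ∈ (PI y z).filter (fun q => ¬ q ∣ D.c0 ∧ ∃ p ∈ ps, ch (p : ℤ) q = -1), D.ρ q / q

/-- Task CA: the count for given `k` smallest exact prime divisors. -/
def S_CA : Prop := ∀ D : Dat, AxG D → ∀ k : ℕ, 1 ≤ k → 1 < Dk D k → ∃ C : ℝ, 1 ≤ C ∧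
  ∀ w z X : ℕ, 3 ≤ w → w ≤ z → C * Real.log z * (1 + Real.log (Real.log z)) ≤ Real.log X →
  ∀ ps : Finset ℕ, ps.card = k → (∀ p ∈ ps, p.Prime ∧ p ≤ w) →
    ({n : ℕ | 1 ≤ n ∧ n ≤ X ∧ Pass D n ∧ (∀ p ∈ ps, Ex D.c0 n p) ∧
      ∀ p : ℕ, Ex D.c0 n p → p ≤ ps.sup id → p ∈ ps}.ncard : ℝ) ≤
    C * (X / ∏ p ∈ ps, (p : ℝ)) * (Real.log w) ^ (Dk D k - 1) * (Real.log z) ^ (-Dk D k)

/-- Task A: at least `k` exact prime divisors up to `w`. -/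
def S_A : Prop := ∀ D : Dat, AxG D → ∀ k : ℕ, 1 ≤ k → 1 < Dk D k →
  Tendsto (fun X : ℕ => ({n : ℕ | 1 ≤ n ∧ n ≤ X ∧ Pass D n ∧
    k ≤ (EP D.c0 (wX X) n).card}.ncard : ℝ) * Real.log X / X) atTop (𝓝 0)

open scoped Classical in
/-- Task CB: the count for given small exact prime divisors `ps` and a large one `r`. -/
def S_CB : Prop := ∀ D : Dat, AxG D → ∀ k : ℕ, ∃ C : ℝ, 1 ≤ C ∧ ∀ X Y Q : ℕ, 3 ≤ Y → Y ≤ Q →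
  C * Real.log Q * (1 + Real.log (Real.log Q)) ≤ Real.log X →
  ∀ (ps : Finset ℕ) (r : ℕ), ps.card ≤ k → (∀ p ∈ ps, p.Prime) → r.Prime → Q < r → r ∉ ps →
  ((∏ p ∈ ps, p) * r) ^ 4 ≤ X ^ 3 →
  |∑ q ∈ PI Y Q, (if q ∣ D.c0 then 0 else D.ρ q) * ch (r : ℤ) q / q| ≤ 1 / 2 →
    ({n : ℕ | 1 ≤ n ∧ n ≤ X ∧ Pass D n ∧ (∀ p ∈ ps, Ex D.c0 n p) ∧ Ex D.c0 n r ∧
      ∀ p : ℕ, Ex D.c0 n p → p ≤ Q → p ∈ ps}.ncard : ℝ) ≤
    C * (X / ((∏ p ∈ ps, (p : ℝ)) * r)) * (Real.log Q) ^ (-(3 / 2) : ℝ) *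
      (Real.log Y) ^ (1 / 2 : ℝ)

/-- Task B: fewer than `k` exact prime divisors up to `w`, at least two above. -/
def S_B : Prop := ∀ D : Dat, AxG D → ∀ k : ℕ,
  Tendsto (fun X : ℕ => ({n : ℕ | 1 ≤ n ∧ n ≤ X ∧ Pass D n ∧ (EP D.c0 (wX X) n).card < k ∧
    ∃ r r' : ℕ, wX X < r ∧ r < r' ∧ Ex D.c0 n r ∧ Ex D.c0 n r'}.ncard : ℝ) * Real.log X / X)
    atTop (𝓝 0)

/-- Task CF: a fixed cofactor `g ≥ 2`. -/
def S_CF : Prop := ∀ D : Dat, AxG D → ∀ g : ℕ, 2 ≤ g →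
  Tendsto (fun X : ℕ => ({p : ℕ | p.Prime ∧ p ≤ X / g ∧ Pass D (g * p)}.ncard : ℝ) *
    Real.log X / X) atTop (𝓝 0)

/-! ## New statements -/

/-- the coefficients of the character sums -/
noncomputable def cf (D : Dat) (q : ℕ) : ℝ := if q ∣ D.c0 then 0 else D.ρ q

/-- Task CCS: sharp upper bound for a given cofactor `a` with an exact prime divisor `t` for which
the character sum over `(Y, Q]` is small. -/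
def S_CCS : Prop := ∀ D : Dat, AxG D → ∃ C : ℕ, 1 ≤ C ∧ ∀ X Y Q a t : ℕ, 3 ≤ Y → Y ≤ Q →
  Q ^ C ≤ X → 1 ≤ a → a ^ 4 ≤ X → a.primeFactors.card ≤ Y → Ex D.c0 a t →
  |∑ q ∈ PI Y Q, cf D q * ch (t : ℤ) q / q| ≤ 1 / 2 →
  ({p : ℕ | p.Prime ∧ t < p ∧ p ≤ X / a ∧ Pass D (a * p)}.ncard : ℝ) * Real.log X ≤
    C * ((X : ℝ) / a) * (Real.log Y / Real.log Q) ^ (1 / 2 : ℝ)

/-- `max 3 (log₂ t)³` -/
def Yt (t : ℕ) : ℕ := max 3 ((Nat.log 2 t) ^ 3)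

/-- about `t ^ (1/4)` -/
def Qt (t : ℕ) : ℕ := 2 ^ (Nat.log 2 t / 4)

/-- `t` is exceptional -/
def Exc (D : Dat) (t : ℕ) : Prop :=
  1 / 2 < |∑ q ∈ PI (Yt t) (Qt t), cf D q * ch (t : ℤ) q / q|

open scoped Classical in
/-- the saving for `t` -/
noncomputable def sv (D : Dat) (t : ℕ) : ℝ :=
  (if Exc D t then 1 else 0) + (Real.log ((max t 3 : ℕ) : ℝ)) ^ (-(1 / 4) : ℝ)

/-- `g` has no exact prime divisors outside `c0` -/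
def NE (c0 g : ℕ) : Prop := 1 ≤ g ∧ ∀ p : ℕ, ¬ Ex c0 g p

/-- nonempty sets of fewer than `k` primes -/
def AdP (k : ℕ) (ps : Finset ℕ) : Prop := (∀ p ∈ ps, p.Prime) ∧ ps.card < k ∧ ps.Nonempty

open scoped Classical in
/-- Task G56. -/
def S_G56 : Prop := ∀ c0 : ℕ, 0 < c0 →
  Summable (fun g : ℕ => if NE c0 g then (g : ℝ) ^ (-(5 / 6) : ℝ) else 0)

open scoped Classical in
/-- Task PSUM. -/
def S_PSUM : Prop := ∀ D : Dat, (∀ q : ℕ, 0 ≤ D.ρ q ∧ D.ρ q ≤ D.κ) → 1 ≤ D.κ → ∀ k : ℕ,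
  Summable (fun ps : Finset ℕ =>
    if AdP k ps then (∏ p ∈ ps, (1 / (p : ℝ))) * sv D (ps.sup id) else 0)

/-- Task CD: exactly one exact prime divisor above `w`, fewer than `k` below. -/
def S_CD : Prop := ∀ D : Dat, AxG D → ∀ k : ℕ,
  Tendsto (fun X : ℕ => ({n : ℕ | 1 ≤ n ∧ n ≤ X ∧ Pass D n ∧ ¬ n.Prime ∧
    (EP D.c0 (wX X) n).card < k ∧
    ∃ r : ℕ, wX X < r ∧ Ex D.c0 n r ∧ ∀ r' : ℕ, wX X < r' → Ex D.c0 n r' → r' = r}.ncard : ℝ) *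
    Real.log X / X) atTop (𝓝 0)

open scoped Classical in
/-- Task LOW: for `L` odd and `g ≥ 2`, many primes `q = 1 (mod L)` have a power of `g` congruent
to `-1`. -/
def S_LOW : Prop := ∀ L : ℕ, Odd L → 3 ≤ L → ∀ g : ℕ, 2 ≤ g → ∃ δ C : ℝ, 0 < δ ∧
  ∀ z : ℕ, 3 ≤ z → δ * Real.log (Real.log z) - C ≤
    ∑ q ∈ (PI 2 z).filter (fun q => q % L = 1 ∧ ¬ q ∣ 6 * L ∧ ∃ j : ℕ, (g : ZMod q) ^ j = -1),
      (1 : ℝ) / q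

/-- The main theorem. -/
def S_MAIN : Prop := ∀ D : Dat, AxG D → 1 < D.τ + D.β / 2 →
  Tendsto (fun X : ℕ => ({n : ℕ | 1 ≤ n ∧ n ≤ X ∧ Pass D n ∧ ¬ n.Prime}.ncard : ℝ) *
    Real.log X / X) atTop (𝓝 0)

end Pool.Agent.Y346.SG
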