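import Pool.Agent.Y346.SG.MN
import Pool.Agent.Y346.SG.BK
import Pool.Agent.Y346.SG.CA
import Pool.Agent.Y346.SG.A
import Pool.Agent.Y346.SG.CB
import Pool.Agent.Y346.SG.B2
import Pool.Agent.Y346.SG.CF
import Pool.Agent.Y346.SG.CCS
import Pool.Agent.Y346.SG.Main
import Pool.Agent.Y346.SG.App
import Pool.Agent.Y65.SG.G56
import Pool.Agent.Y390.SG.PSUM
import Pool.Agent.Y79.SG2.Low
import Pool.Agent.W52.PQ.SV
import Pool.Agent.W215.PQ.L2
import Pool.Agent.W465.PQ.PQGS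
import Pool.Agent.W475.PQ.E

set_option autoImplicit false

/-!
# Project SG: the main theorem and the application
-/

namespace Pool.Agent.Y346.SG

open Filter Topology
open Pool.Agent.H771R2.SingerDS

theorem mn_full : S_MN := MN.mn
theorem bk_full : S_BK := BK.bk
theorem a_full : S_A := A.a (CA.ca Pool.Agent.W52.PQ.sv mn_full bk_full)
theorem b_full : S_B := B.main (CB.cb Pool.Agent.W52.PQ.sv mn_full) Pool.Agent.W215.PQ.l2
theorem cf_full : S_CF := CF.cf' Pool.Agent.W52.PQ.sv mn_full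
theorem ccs_full : S_CCS := CCS.ccs mn_full
theorem e_full : Pool.Agent.W114.PQ.S_E :=
  Pool.Agent.W475.PQ.e Pool.Agent.W465.PQ.GS.gs Pool.Agent.W465.PQ.GS.gd
theorem main_full (cd : S_CD) : S_MAIN := main_of a_full b_full cd e_full

theorem singer_full (cd : S_CD) {L : ℕ} (hL : Odd L) (h3 : 3 ≤ L) :
    Tendsto (fun X : ℕ => ({n : ℕ | 2 ≤ n ∧ n ≤ X ∧ ¬ IsPrimePow n ∧
      ∃ m : ℕ, Odd m ∧ 3 ≤ m ∧ L ∣ m ∧ Cond L n m ∧ HasSinger n m}.ncard : ℝ) * Real.log X / X)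
      atTop (𝓝 0) :=
  app (main_full cd) Pool.Agent.Y79.SG2.low hL h3

end Pool.Agent.Y346.SG
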