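import Pool.Agent.Y346.SG.OC
import Pool.Agent.Y346.SG.Full

set_option autoImplicit false

/-!
# Project SG: the number of orders, for all `m` with a prime factor up to `K`
-/

namespace Pool.Agent.Y346.SG

open Finset Filter Topology
open Pool.Agent.H771R2.SingerDS
open Pool.Agent.H951R4.OD (ch PI Ex)
open Pool.Agent.W114.PQ (Dat Pass EP wX Dk datS)
open Pool.Agent.Y346.SG.DS (datG)

theorem tau_prime {L : ℕ} (hL : L.Prime) : (datS L).τ = 1 := by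
  have h2 : (datS L).τ = ((L.divisors.filter (fun d => 1 < d)).card : ℝ) := by
    unfold datS
    congr!
  rw [h2]
  have h3 : L.divisors.filter (fun d => 1 < d) = {L} := by
    ext d
    rw [mem_filter, Nat.mem_divisors, mem_singleton]
    constructor
    · rintro ⟨⟨h, _⟩, h1⟩
      exact ((Nat.dvd_prime hL).1 h).resolve_left (by omega)
    · rintro rfl
      exact ⟨⟨dvd_rfl, hL.ne_zero⟩, hL.one_lt⟩
  rw [h3]
  simp

theorem singer_count {L : ℕ} (hL : L.Prime) (h3 : 3 ≤ L) (ε : ℝ) (hε : 0 < ε) :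
    ∃ C : ℝ, 0 < C ∧ ∀ X : ℕ, 3 ≤ X →
      ({n : ℕ | 2 ≤ n ∧ n ≤ X ∧
        ∃ m : ℕ, Odd m ∧ 3 ≤ m ∧ L ∣ m ∧ HasSinger n m}.ncard : ℝ) ≤
      C * X * (Real.log X) ^ (ε - 1) := by
  have hodd : Odd L := hL.odd_of_ne_two (by omega)
  have e1 : (datG L 0).τ + (datG L 0).β / 2 = 1 := by
    have e1 : (datG L 0).τ = (datS L).τ := rfl
    have e2 : (datG L 0).β = 0 := rfl
    rw [e1, e2, tau_prime hL]
    norm_num
  obtain ⟨C, hC, H⟩ := OC.oc Pool.Agent.W52.PQ.sv mn_full BK.bk (datG L 0)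
    (DS.ax Pool.Agent.Y79.SG2.low hodd h3 0 (Or.inl rfl)) e1 ε hε
  refine ⟨C, hC, fun X hX => le_trans ?_ (H X hX)⟩
  have hfin : {n : ℕ | 1 ≤ n ∧ n ≤ X ∧ Pass (datG L 0) n}.Finite :=
    (Set.finite_le_nat X).subset fun _ hp => hp.2.1
  exact_mod_cast Set.ncard_le_ncard (fun n hn => by
    obtain ⟨hn2, hnX, m, hm, hm3, hLm, hS⟩ := hn
    exact ⟨by omega, hnX, pass0 0 hm hm3 hLm hn2 hS (fun h0 => by norm_num at h0)⟩) hfin

/-- all odd `m ≥ 3` with a prime factor up to `K` -/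
theorem singer_count_le (K : ℕ) (ε : ℝ) (hε : 0 < ε) :
    ∃ C : ℝ, 0 < C ∧ ∀ X : ℕ, 3 ≤ X →
      ({n : ℕ | 2 ≤ n ∧ n ≤ X ∧
        ∃ m : ℕ, Odd m ∧ 3 ≤ m ∧ m.minFac ≤ K ∧ HasSinger n m}.ncard : ℝ) ≤
      C * X * (Real.log X) ^ (ε - 1) := by
  classical
  have h : ∀ L : ℕ, ∃ C : ℝ, 0 < C ∧ ((L.Prime ∧ 3 ≤ L) → ∀ X : ℕ, 3 ≤ X →
      ({n : ℕ | 2 ≤ n ∧ n ≤ X ∧
        ∃ m : ℕ, Odd m ∧ 3 ≤ m ∧ L ∣ m ∧ HasSinger n m}.ncard : ℝ) ≤
      C * X * (Real.log X) ^ (ε - 1)) := by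
    intro L
    by_cases hL : L.Prime ∧ 3 ≤ L
    · obtain ⟨C, hC, H⟩ := singer_count hL.1 hL.2 ε hε
      exact ⟨C, hC, fun _ => H⟩
    · exact ⟨1, one_pos, fun h => absurd h hL⟩
  choose C hC H using h
  set S := (Finset.range (K + 1)).filter (fun L => L.Prime ∧ 3 ≤ L) with hS
  refine ⟨∑ L ∈ S, C L + 1, by
    have : 0 ≤ ∑ L ∈ S, C L := Finset.sum_nonneg fun L _ => (hC L).le
    linarith, fun X hX => ?_⟩
  set A : ℕ → Set ℕ := fun L => {n : ℕ | 2 ≤ n ∧ n ≤ X ∧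
        ∃ m : ℕ, Odd m ∧ 3 ≤ m ∧ L ∣ m ∧ HasSinger n m} with hA
  have hAfin : ∀ L, (A L).Finite := fun L => (Set.finite_le_nat X).subset fun _ hp => hp.2.1
  have hlog : 0 ≤ (X : ℝ) * (Real.log X) ^ (ε - 1) :=
    mul_nonneg (Nat.cast_nonneg _) (Real.rpow_nonneg (Real.log_natCast_nonneg X) _)
  have h1 : ({n : ℕ | 2 ≤ n ∧ n ≤ X ∧
        ∃ m : ℕ, Odd m ∧ 3 ≤ m ∧ m.minFac ≤ K ∧ HasSinger n m}.ncard : ℝ) ≤
      ∑ L ∈ S, ((A L).ncard : ℝ) := by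
    have h2 : {n : ℕ | 2 ≤ n ∧ n ≤ X ∧
        ∃ m : ℕ, Odd m ∧ 3 ≤ m ∧ m.minFac ≤ K ∧ HasSinger n m} ⊆
        ((S.biUnion fun L => (hAfin L).toFinset : Finset ℕ) : Set ℕ) := by
      rintro n ⟨hn2, hnX, m, hm, hm3, hK, hSi⟩
      have hp : m.minFac.Prime := Nat.minFac_prime (by omega)
      have hd : m.minFac ∣ m := Nat.minFac_dvd m
      have h3 : 3 ≤ m.minFac := by
        have h2 := hp.two_le
        rcases Nat.lt_or_ge 2 m.minFac with h | h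
        · exact h
        · have h4 : m.minFac = 2 := by omega
          rw [h4] at hd
          rcases hm with ⟨k, hk⟩
          omega
      rw [Finset.mem_coe, Finset.mem_biUnion]
      refine ⟨m.minFac, ?_, ?_⟩
      · rw [hS, Finset.mem_filter, Finset.mem_range]
        exact ⟨by omega, hp, h3⟩
      · rw [Set.Finite.mem_toFinset]
        exact ⟨hn2, hnX, m, hm, hm3, hd, hSi⟩
    have h3 := Set.ncard_le_ncard h2 (Finset.finite_toSet _)
    rw [Set.ncard_coe_finset] at h3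
    have h4 := h3.trans Finset.card_biUnion_le
    have h5 : ∀ L, (hAfin L).toFinset.card = (A L).ncard := fun L =>
      (Set.ncard_eq_toFinset_card _ (hAfin L)).symm
    simp only [h5] at h4
    exact_mod_cast h4
  refine h1.trans ?_
  calc ∑ L ∈ S, ((A L).ncard : ℝ) ≤ ∑ L ∈ S, C L * X * (Real.log X) ^ (ε - 1) := by
        refine Finset.sum_le_sum fun L hL => ?_
        rw [hS, Finset.mem_filter] at hL
        exact H L hL.2 X hX
    _ = (∑ L ∈ S, C L) * (X * (Real.log X) ^ (ε - 1)) := by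
        rw [Finset.sum_mul]
        exact Finset.sum_congr rfl fun L _ => by ring
    _ ≤ (∑ L ∈ S, C L + 1) * (X * (Real.log X) ^ (ε - 1)) :=
        mul_le_mul_of_nonneg_right (by linarith) hlog
    _ = _ := by ring

end Pool.Agent.Y346.SG
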