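import Pool.Agent.Y346.SG.Stm
import Pool.Agent.W52.PQ.DS

set_option autoImplicit false

/-!
# Singer data, all odd `L ≥ 3`
-/

namespace Pool.Agent.Y346.SG.DS

open Finset
open Pool.Agent.H951R4.OD (ch PI)
open Pool.Agent.W114.PQ (Dat datS)
open Pool.Agent.W52.PQ

/-- the data `datS L` with a given `β` -/
noncomputable def datG (L : ℕ) (b : ℝ) : Dat := { datS L with β := b }

theorem ax (low : S_LOW) {L : ℕ} (hodd : Odd L) (h3 : 3 ≤ L) (b : ℝ) (hb : b = 0 ∨ b = 1) :
    AxG (datG L b) := by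
  have hL : 0 < L := by omega
  have hLm : L ∈ L.divisors.filter (fun d => 1 < d) := by
    rw [mem_filter, Nat.mem_divisors]
    exact ⟨⟨dvd_rfl, hL.ne'⟩, by omega⟩
  refine
    { c0_pos := ?_, two := ?_, m_odd := hodd, κ1 := ?_, τ1 := ?_,
      β01 := hb, rho_up := ?_, per := ?_, ord := ?_, cnt := ?_,
      mert := ?_, low := ?_ }
  · change 0 < 6 * L
    omega
  · change 2 ∣ 6 * L
    exact ⟨3 * L, by ring⟩
  · change (1 : ℝ) ≤ (L : ℝ)
    exact_mod_cast hL
  · change (1 : ℝ) ≤ ((L.divisors.filter (fun d => 1 < d)).card : ℝ)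
    exact_mod_cast Finset.card_pos.2 ⟨L, hLm⟩
  · intro q
    exact ⟨rho_ge L q, rho_le L q⟩
  · intro q n hq
    change (∃ d : ℕ, 1 < d ∧ d ∣ L ∧ orderOf (((n + q ^ 2 : ℕ)) : ZMod q) = d) ↔
      ∃ d : ℕ, 1 < d ∧ d ∣ L ∧ orderOf (n : ZMod q) = d
    have h : ((n + q ^ 2 : ℕ) : ZMod q) = (n : ZMod q) := by
      push_cast
      rw [ZMod.natCast_self]
      ring
    rw [h]
  · intro q n hq hq6 hT
    obtain ⟨d, _, h2, h4⟩ := hT
    change (n : ZMod q) ^ L = 1
    rw [← orderOf_dvd_iff_pow_eq_one, h4]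
    exact h2
  · intro q hq hq6
    have := Fact.mk hq
    classical
    have h1 : ((range (q ^ 2)).filter (fun n => (datS L).T q n)).card =
        q * ((range q).filter (fun n => (datS L).T q n)).card := by
      rw [pow_two]
      refine card_range_mul q q _ fun n => ?_
      change (∃ d : ℕ, 1 < d ∧ d ∣ L ∧ orderOf (((n + q : ℕ)) : ZMod q) = d) ↔
        ∃ d : ℕ, 1 < d ∧ d ∣ L ∧ orderOf (n : ZMod q) = d
      have h : ((n + q : ℕ) : ZMod q) = (n : ZMod q) := by
        push_cast
        rw [ZMod.natCast_self]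
        ring
      rw [h]
    have h2 : ((range q).filter (fun n => (datS L).T q n)).card =
        ∑ d ∈ L.divisors.filter (fun d => 1 < d), (if q % d = 1 then d.totient else 0) := by
      rw [← card_T L q hL.ne' (fun x => ∃ d : ℕ, 1 < d ∧ d ∣ L ∧ orderOf x = d)
        (fun x => Iff.rfl)]
      exact card_range_zmod q (fun x => ∃ d : ℕ, 1 < d ∧ d ∣ L ∧ orderOf x = d)
    have h3' : (((range (q ^ 2)).filter (fun n => (datS L).T q n)).card : ℝ) =
        q * (datS L).ρ q := by
      rw [h1, h2]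
      change ((q * ∑ d ∈ L.divisors.filter (fun d => 1 < d),
        (if q % d = 1 then d.totient else 0) : ℕ) : ℝ) = q *
        ∑ d ∈ L.divisors.filter (fun d => 1 < d), (if q % d = 1 then (d.totient : ℝ) else 0)
      push_cast
      rfl
    have h4 : (0 : ℝ) ≤ (datS L).κ := by
      change (0 : ℝ) ≤ (L : ℝ)
      positivity
    change |(((range (q ^ 2)).filter (fun n => (datS L).T q n)).card : ℝ) - q * (datS L).ρ q| ≤
      (datS L).κ
    convert h4 using 1
    rw [abs_eq_zero, sub_eq_zero, ← h3']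
  · obtain ⟨C, hC⟩ := mert_all (L.divisors.filter (fun d => 1 < d))
      (fun d hd => (mem_filter.1 hd).2)
    refine ⟨2 * C, fun y z hy hz => ?_⟩
    change |∑ q ∈ PI y z, (∑ d ∈ L.divisors.filter (fun d => 1 < d),
      (if q % d = 1 then (d.totient : ℝ) else 0)) / q -
      ((L.divisors.filter (fun d => 1 < d)).card : ℝ) *
        Real.log (Real.log z / Real.log y)| ≤ 2 * C
    have h1 := hC y hy
    have h2 := hC z (hy.trans hz)
    rw [sum_PI_sub _ y z hz, Real.log_div
      (Real.log_pos (by exact_mod_cast (by omega : 1 < z))).ne'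
      (Real.log_pos (by exact_mod_cast (by omega : 1 < y))).ne']
    rw [abs_le] at h1 h2 ⊢
    constructor <;> nlinarith [h1.1, h1.2, h2.1, h2.2]
  · intro g hg
    obtain ⟨δ, C, hδ, hC⟩ := low L hodd h3 g hg
    refine ⟨δ, C, hδ, fun z hz => (hC z hz).trans ?_⟩
    classical
    have hρ : ∀ q : ℕ, q % L = 1 → 1 ≤ (datG L b).ρ q := by
      intro q hq
      change (1 : ℝ) ≤ ∑ d ∈ L.divisors.filter (fun d => 1 < d),
        (if q % d = 1 then (d.totient : ℝ) else 0)
      refine le_trans ?_ (Finset.single_le_sum (f := fun d : ℕ =>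
        if q % d = 1 then (d.totient : ℝ) else 0) (fun d _ => ?_) hLm)
      · simp only [hq, if_true]
        exact_mod_cast Nat.totient_pos.2 hL
      · split_ifs
        · positivity
        · exact le_rfl
    calc ∑ q ∈ (PI 2 z).filter (fun q => q % L = 1 ∧ ¬ q ∣ 6 * L ∧
          ∃ j : ℕ, (g : ZMod q) ^ j = -1), (1 : ℝ) / q
        ≤ ∑ q ∈ (PI 2 z).filter (fun q => q % L = 1 ∧ ¬ q ∣ 6 * L ∧
          ∃ j : ℕ, (g : ZMod q) ^ j = -1), (datG L b).ρ q / q := by
          refine Finset.sum_le_sum fun q hq => ?_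
          rw [mem_filter] at hq
          exact div_le_div_of_nonneg_right (hρ q hq.2.1) (Nat.cast_nonneg q)
      _ ≤ ∑ q ∈ (PI 2 z).filter (fun q => ¬ q ∣ 6 * L ∧ ∃ j : ℕ, (g : ZMod q) ^ j = -1),
          (datG L b).ρ q / q := by
          refine Finset.sum_le_sum_of_subset_of_nonneg ?_ fun q _ _ =>
            div_nonneg (rho_ge L q) (Nat.cast_nonneg q)
          intro q hq
          rw [mem_filter] at hq ⊢
          exact ⟨hq.1, hq.2.2⟩
      _ = _ := by
          refine Finset.sum_congr ?_ fun _ _ => rfl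
          ext q
          simp only [mem_filter]
          rfl

end Pool.Agent.Y346.SG.DS
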