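import Pool.Agent.Y346.SG.Stm

set_option autoImplicit false
set_option linter.unusedVariables false

namespace Pool.Agent.Y346.SG.MN

open Finset Pool.Agent.W114.PQ

lemma per_mul {D : Dat} (h : AxG D) {q : ℕ} (hq : q.Prime) (n j : ℕ) :
    D.T q (n + q ^ 2 * j) ↔ D.T q n := by
  induction j with
  | zero => simp
  | succ j ih =>
    have e : n + q ^ 2 * (j + 1) = (n + q ^ 2 * j) + q ^ 2 := by ring
    rw [e, h.per q _ hq, ih]

lemma per_mod {D : Dat} (h : AxG D) {q : ℕ} (hq : q.Prime) (n : ℕ) :
    D.T q n ↔ D.T q (n % q ^ 2) := by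
  conv_lhs => rw [← Nat.mod_add_div n (q ^ 2)]
  exact per_mul h hq _ _

theorem mn : S_MN := by
  classical
  intro D h q a hq hqc
  refine ⟨?_, ?_⟩
  · intro n hT hqn
    have h1 := h.ord q n hq hqc hT
    have h2 : (n : ZMod q) = 0 := (ZMod.natCast_eq_zero_iff n q).2 hqn
    have hm : D.m ≠ 0 := by
      have := h.m_odd
      rintro h0
      rw [h0] at this
      exact absurd this (by decide)
    have : Fact q.Prime := ⟨hq⟩
    rw [h2, zero_pow hm] at h1
    exact zero_ne_one h1
  · intro hcop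
    have hcop2 : Nat.Coprime a (q ^ 2) := hcop.pow_right 2
    have hpos : 0 < q ^ 2 := pow_pos hq.pos 2
    have hinj : Set.InjOn (fun n : ℕ => (a * n) % q ^ 2) (range (q ^ 2) : Set ℕ) := by
      intro x hx y hy hab
      simp only [coe_range, Set.mem_Iio] at hx hy
      have h1 : a * x ≡ a * y [MOD q ^ 2] := hab
      have h2 : x ≡ y [MOD q ^ 2] :=
        Nat.ModEq.cancel_left_of_coprime (by simpa [Nat.coprime_comm] using hcop2) h1
      exact Nat.ModEq.eq_of_lt_of_lt h2 hx hy
    have himg : (range (q ^ 2)).image (fun n : ℕ => (a * n) % q ^ 2) = range (q ^ 2) := by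
      apply Finset.eq_of_subset_of_card_le
      · intro x hx
        obtain ⟨a, -, rfl⟩ := mem_image.1 hx
        exact mem_range.2 (Nat.mod_lt _ hpos)
      · rw [Finset.card_image_of_injOn hinj]
    have hsum : ∑ n ∈ range (q ^ 2), (if D.T q (a * n) then (1 : ℝ) else 0) =
        (((range (q ^ 2)).filter (fun n => D.T q n)).card : ℝ) := by
      rw [Finset.card_filter]
      push_cast
      conv_rhs => rw [← himg]
      rw [Finset.sum_image hinj]
      refine Finset.sum_congr rfl fun n _ => ?_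
      rw [if_congr (per_mod h hq (a * n)) rfl rfl]
    rw [hsum]
    have hq0 : (0 : ℝ) < q := by exact_mod_cast hq.pos
    have h3 := h.cnt q hq hqc
    have e : (((range (q ^ 2)).filter (fun n => D.T q n)).card : ℝ) / (q : ℝ) ^ 2 - D.ρ q / q =
        ((((range (q ^ 2)).filter (fun n => D.T q n)).card : ℝ) - q * D.ρ q) / (q : ℝ) ^ 2 := by
      field_simp
    rw [e, abs_div, abs_of_pos (by positivity : (0 : ℝ) < (q : ℝ) ^ 2)]
    gcongr

end Pool.Agent.Y346.SG.MN
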