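import Pool.Agent.Y346.SG.CA
import Pool.Agent.H951R4.OD.D3
import Pool.Agent.H951R4.OD.Main

set_option autoImplicit false

/-!
# The order count: `X (log X) ^ (ε - 1)`
-/

namespace Pool.Agent.Y346.SG.OC

open Finset Pool.Agent.W114.PQ
open Pool.Agent.H951R4.OD (ch PI Ex countI sum_inv_prod d3_smallest d3_ncard d3_ps d3_log
  one_add_log_le)
open Pool.Agent.Y346.SG.CA
open scoped Classical

theorem ca2 (sv : S_SV) (mn : S_MN) (bk : S_BK) (D : Dat) (hD : AxG D) (k : ℕ) (hk : 1 ≤ k)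
    (hD0 : 0 < Dk D k) (hD1 : Dk D k ≤ 1) : ∃ C : ℝ, 1 ≤ C ∧
    ∀ z X : ℕ, 3 ≤ z → C * Real.log z * (1 + Real.log (Real.log z)) ≤ Real.log X →
    ∀ ps : Finset ℕ, ps.card = k → (∀ p ∈ ps, p.Prime ∧ p ≤ z) →
      ({n : ℕ | 1 ≤ n ∧ n ≤ X ∧ Pass D n ∧ (∀ p ∈ ps, Ex D.c0 n p) ∧
        ∀ p : ℕ, Ex D.c0 n p → p ≤ ps.sup id → p ∈ ps}.ncard : ℝ) ≤
      C * (X / ∏ p ∈ ps, (p : ℝ)) * (Real.log z) ^ (-Dk D k) := by
  have hκ := hD.κ1
  obtain ⟨Cs, hCs, hsieve⟩ := sv (2 * D.κ + 1) (by linarith)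
  obtain ⟨Cb, hCb, hbad⟩ := bk D hD k
  obtain ⟨Ca, hCa, hsmall⟩ := Pool.Agent.H951R4.OD.D2b_small D.c0 hD.c0_pos k
  obtain ⟨C3, hC3, h3m⟩ := three_mod_four D.c0 hD.c0_pos
  obtain ⟨Cq, hCq, hsq⟩ := Pool.Agent.H951R4.OD.sum_sq_inv
  set K : ℝ := Real.log (2 * Cb) + 2 * k with hK
  have hkr : (1 : ℝ) ≤ k := by exact_mod_cast hk
  have hlogCb : 0 < Real.log (2 * Cb) := Real.log_pos (by linarith)
  have hK1 : 1 ≤ K := by rw [hK]; linarith
  have hlogK : 0 ≤ Real.log K := Real.log_nonneg hK1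
  set δ : ℝ := Dk D k with hδ
  set C2 : ℝ := Cb + C3 + (D.κ + 1) * Cq with hC2
  have hC20 : 0 ≤ C2 := by positivity
  set C' : ℝ := Ca + C2 + δ * Real.log K with hC'
  have hC'0 : 0 ≤ C' := by positivity
  refine ⟨Cs * Real.exp C' + Cs + k + 1, ?_, ?_⟩
  · have : 0 ≤ Cs * Real.exp C' := by positivity
    have hk0 : (0 : ℝ) ≤ k := Nat.cast_nonneg k
    linarith
  intro z X hw hX ps hpk hps
  have hz : 3 ≤ z := hw
  obtain ⟨w, hwdef⟩ : ∃ w : ℕ, w = z := ⟨z, rfl⟩
  have hwz : w ≤ z := hwdef.le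
  rw [← hwdef] at hps hw
  set Pr : ℕ := ∏ p ∈ ps, p with hPr
  set P : ℕ := ps.sup id with hP
  have hz3 : (3 : ℝ) ≤ z := by exact_mod_cast hz
  have hw3 : (3 : ℝ) ≤ w := by exact_mod_cast hw
  have hexp1 : Real.exp 1 < 3 := by
    have := Real.exp_one_lt_d9
    linarith
  have hlz : 1 ≤ Real.log z := by
    rw [Real.le_log_iff_exp_le (by linarith)]; linarith
  have hlw : 1 ≤ Real.log w := by
    rw [Real.le_log_iff_exp_le (by linarith)]; linarith
  have hllz : 0 ≤ Real.log (Real.log z) := Real.log_nonneg hlz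
  have hne : ps.Nonempty := by
    rw [← Finset.card_pos]; omega
  obtain ⟨P0, hP0, hP0'⟩ := Finset.exists_mem_eq_sup ps hne id
  have hPP0 : P = P0 := hP0'
  have hPmem : P ∈ ps := by rw [hPP0]; exact hP0
  have hPprime : P.Prime := (hps P hPmem).1
  have hPw : P ≤ w := (hps P hPmem).2
  have hPz : P ≤ z := hPw.trans hwz
  have hleP : ∀ p ∈ ps, p ≤ P := fun p hp => Finset.le_sup (f := id) hp
  have hPr0 : 0 < Pr := Finset.prod_pos fun p hp => (hps p hp).1.pos
  have hPPr : P ≤ Pr := Nat.le_of_dvd hPr0 (Finset.dvd_prod_of_mem _ hPmem)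
  have hPrP : Pr ≤ P ^ k := by
    have := Finset.prod_le_pow_card ps (fun p => p) P hleP
    rw [hpk] at this
    exact this
  have hPrz : Pr ≤ z ^ k := hPrP.trans (Nat.pow_le_pow_left hPz k)
  have hPrr : (1 : ℝ) ≤ Pr := by exact_mod_cast hPr0
  have hprod : (∏ p ∈ ps, (p : ℝ)) = (Pr : ℝ) := by rw [hPr]; push_cast; rfl
  rw [hprod]
  -- sizes
  have hlogPr : Real.log Pr ≤ k * Real.log z := by
    rw [← Real.log_pow]
    apply Real.log_le_log (by linarith)
    exact_mod_cast hPrz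
  have hCC : (Cs + k + 1) * (Real.log z * (1 + Real.log (Real.log z))) ≤ Real.log X := by
    refine le_trans ?_ hX
    rw [mul_assoc]
    apply mul_le_mul_of_nonneg_right _ (by positivity)
    have : 0 ≤ Cs * Real.exp C' := by positivity
    linarith
  have hL1 : Real.log z ≤ Real.log z * (1 + Real.log (Real.log z)) := by nlinarith
  set LL : ℝ := Real.log z * (1 + Real.log (Real.log z)) with hLL
  have hLL1 : 1 ≤ LL := hlz.trans hL1
  have hX0 : 0 < Real.log X := by
    have : 0 < (Cs + k + 1) * LL := by positivity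
    linarith
  have hXpos : (1 : ℝ) < X := by
    by_contra hcon
    push Not at hcon
    have := Real.log_nonpos (Nat.cast_nonneg X) hcon
    linarith
  have hlog2 : Real.log 2 ≤ Real.log z := Real.log_le_log (by norm_num) (by linarith)
  have hXPr : Real.log (2 * Pr) ≤ Real.log X := by
    rw [Real.log_mul (by norm_num) (by linarith)]
    have : (k : ℝ) * Real.log z ≤ k * LL := mul_le_mul_of_nonneg_left hL1 (by linarith)
    nlinarith
  have hXPr' : 2 * (Pr : ℝ) ≤ X := (Real.log_le_log_iff (by linarith) (by linarith)).1 hXPr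
  have hN2 : (X : ℝ) / (2 * Pr) ≤ ((X / Pr : ℕ) : ℝ) := by
    have h1 : (X : ℝ) / Pr < ((X / Pr : ℕ) : ℝ) + 1 := by
      rw [div_lt_iff₀ (by linarith)]
      have := Nat.lt_mul_div_succ X hPr0
      rw [mul_comm]
      exact_mod_cast this
    have h2 : (2 : ℝ) ≤ X / Pr := by
      rw [le_div_iff₀ (by linarith)]; exact hXPr'
    have h3 : (X : ℝ) / (2 * Pr) = (X / Pr) / 2 := by
      field_simp
    rw [h3]
    linarith
  have hNle : ((X / Pr : ℕ) : ℝ) ≤ X / Pr := Nat.cast_div_le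
  have hlogN : Cs * Real.log z * (1 + Real.log (Real.log z)) ≤ Real.log ((X / Pr : ℕ) : ℝ) := by
    have h1 : Real.log ((X : ℝ) / (2 * Pr)) ≤ Real.log ((X / Pr : ℕ) : ℝ) :=
      Real.log_le_log (by positivity) hN2
    rw [Real.log_div (by linarith) (by positivity), Real.log_mul (by norm_num) (by linarith)] at h1
    have : (k : ℝ) * Real.log z ≤ k * LL := mul_le_mul_of_nonneg_left hL1 (by linarith)
    rw [mul_assoc]
    nlinarith
  -- y
  set y : ℕ := ⌈Cb * (Pr : ℝ) ^ 2⌉₊ with hy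
  have hy1 : Cb * (Pr : ℝ) ^ 2 ≤ y := Nat.le_ceil _
  have hy2 : (y : ℝ) < Cb * (Pr : ℝ) ^ 2 + 1 := Nat.ceil_lt_add_one (by positivity)
  have hPy : P ≤ y := by
    have h1 : (P : ℝ) ≤ Pr := by exact_mod_cast hPPr
    have h2 : (P : ℝ) ≤ y := by nlinarith
    exact_mod_cast h2
  have hy3 : 3 ≤ y := by
    have h2 : (3 : ℝ) ≤ y := by nlinarith
    exact_mod_cast h2
  have hyr : (3 : ℝ) ≤ y := by exact_mod_cast hy3
  set P3 : ℝ := ((max P 3 : ℕ) : ℝ) with hP3
  have hP33 : (3 : ℝ) ≤ P3 := by rw [hP3]; exact_mod_cast le_max_right _ _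
  have hP3w : P3 ≤ w := by rw [hP3]; exact_mod_cast max_le hPw hw
  have hlP3 : 1 ≤ Real.log P3 := by
    rw [Real.le_log_iff_exp_le (by linarith)]
    linarith
  have hllP3w : Real.log (Real.log P3) ≤ Real.log (Real.log w) :=
    Real.log_le_log (by linarith) (Real.log_le_log (by linarith) hP3w)
  have hlogy : Real.log y ≤ K * Real.log P3 := by
    have h1 : (y : ℝ) ≤ 2 * Cb * (Pr : ℝ) ^ 2 := by nlinarith
    have h2 : Real.log y ≤ Real.log (2 * Cb * (Pr : ℝ) ^ 2) := Real.log_le_log (by linarith) h1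
    rw [Real.log_mul (by positivity) (by positivity), Real.log_pow] at h2
    have h3 : Real.log Pr ≤ k * Real.log P3 := by
      rw [← Real.log_pow]
      apply Real.log_le_log (by linarith)
      have h4 : (Pr : ℝ) ≤ (P : ℝ) ^ k := by exact_mod_cast hPrP
      refine h4.trans (pow_le_pow_left₀ (Nat.cast_nonneg _) ?_ k)
      rw [hP3]; exact_mod_cast le_max_left _ _
    rw [hK]
    push_cast at h2
    nlinarith
  have hlogy0 : 0 < Real.log y := Real.log_pos (by linarith)
  have hlly : Real.log (Real.log y) ≤ Real.log K + Real.log (Real.log P3) := by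
    rw [← Real.log_mul (by linarith) (by linarith)]
    exact Real.log_le_log hlogy0 hlogy
  have hA0 : 0 ≤ Real.log (Real.log P3) := Real.log_nonneg hlP3
  -- the two sets
  set S1 : Finset ℕ := (PI 0 P).filter (fun r => ¬ r ∣ D.c0 ∧ r ∉ ps) with hS1
  set S2 : Finset ℕ := (PI y z).filter (fun q => ¬ q ∣ D.c0) with hS2
  have hmem1 : ∀ r ∈ S1, r.Prime ∧ r ≤ P ∧ ¬ r ∣ D.c0 ∧ r ∉ ps := by
    intro r hr
    simp only [hS1, PI, mem_filter, mem_Ioc] at hr
    exact ⟨hr.1.2, hr.1.1.2, hr.2.1, hr.2.2⟩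
  have hmem2 : ∀ q ∈ S2, q.Prime ∧ y < q ∧ q ≤ z ∧ ¬ q ∣ D.c0 := by
    intro q hq
    simp only [hS2, PI, mem_filter, mem_Ioc] at hq
    exact ⟨hq.1.2, hq.1.1.1, hq.1.1.2, hq.2⟩
  have hdisj : Disjoint S1 S2 := by
    rw [Finset.disjoint_left]
    intro r h1 h2
    have := (hmem1 r h1).2.1
    have := (hmem2 r h2).2.1
    omega
  have hcop : ∀ q ∈ S2, Nat.Coprime Pr q := by
    intro q hq
    obtain ⟨h1, h2, -, -⟩ := hmem2 q hq
    rw [hPr]
    apply Nat.Coprime.prod_left
    intro p hp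
    refine (Nat.coprime_primes (hps p hp).1 h1).2 (fun hh => ?_)
    have := hleP p hp
    omega
  have hme1 : ∀ r ∈ S1, (∑ n ∈ range (r ^ 2), hh D ps P Pr r n) / (r : ℝ) ^ 2 =
      1 / r - 1 / (r : ℝ) ^ 2 := fun r hr => mean1 D ps (hmem1 r hr).1 (hmem1 r hr).2.1
  have hme2 := fun q (hq : q ∈ S2) => mean2 hD mn ps (P := P) (Pr := Pr) (hmem2 q hq).1 (by
        have := (hmem2 q hq).2.1
        omega) (hmem2 q hq).2.2.2 (hcop q hq)
  have hs := hsieve z (X / Pr) hz hlogN (S1 ∪ S2) (hh D ps P Pr) (by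
      intro p hp
      rcases mem_union.1 hp with hp | hp
      · exact ⟨(hmem1 p hp).1, (hmem1 p hp).2.1.trans hPz⟩
      · exact ⟨(hmem2 p hp).1, (hmem2 p hp).2.2.1⟩) (fun p _ n => hh01 D ps P Pr p n) (by
      intro p hp n
      apply hh_per hD
      rcases mem_union.1 hp with hp | hp
      · exact (hmem1 p hp).1
      · exact (hmem2 p hp).1) (by
      intro p hp
      rcases mem_union.1 hp with hp | hp
      · rw [hme1 p hp]
        have : (1 : ℝ) / p ≤ (2 * D.κ + 1) / p := by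
          apply div_le_div_of_nonneg_right (by linarith) (Nat.cast_nonneg p)
        have : (0 : ℝ) ≤ 1 / (p : ℝ) ^ 2 := by positivity
        linarith
      · exact (hme2 p hp).2)
  have hsift := sift hD ps (fun p hp => (hps p hp).1) S1 S2 X y hmem1
    (fun q hq => ⟨(hmem2 q hq).1, (hmem2 q hq).2.1, (hmem2 q hq).2.2.2⟩) hPy
  refine hsift.trans (hs.trans ?_)
  rw [Finset.sum_union hdisj, Finset.sum_congr rfl hme1]
  set Sg2 : ℝ := ∑ q ∈ S2, (∑ n ∈ range (q ^ 2), hh D ps P Pr q n) / (q : ℝ) ^ 2 with hSg2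
  have h1 := hsmall ps hpk P hPprime.two_le
  -- the lower bound of the sum of the means
  have hlow : δ * Real.log (Real.log z) - C' ≤
      ∑ r ∈ S1, (1 / (r : ℝ) - 1 / (r : ℝ) ^ 2) + Sg2 := by
    have hmw : 0 ≤ (1 - δ) * Real.log (Real.log P3) :=
      mul_nonneg (by linarith) hA0
    rcases Nat.lt_or_ge z y with hzy | hyz
    · have h2 : S2 = ∅ := by
        rw [Finset.eq_empty_iff_forall_notMem]
        intro q hq
        have := (hmem2 q hq).2
        omega
      have h2' : Sg2 = 0 := by rw [hSg2, h2, Finset.sum_empty]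
      rw [h2', add_zero]
      have h3 : Real.log (Real.log z) ≤ Real.log (Real.log y) := by
        apply Real.log_le_log (by linarith)
        apply Real.log_le_log (by linarith)
        exact_mod_cast hzy.le
      have h4 : δ * Real.log (Real.log z) ≤ δ * (Real.log K + Real.log (Real.log P3)) :=
        mul_le_mul_of_nonneg_left (h3.trans hlly) (by linarith)
      rw [hC']
      linarith
    · have h2 := hbad ps hpk (fun p hp => (hps p hp).1) y z (by rw [hprod]; exact hy1) hyz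
      have h3 := h3m y z (by omega) hyz
      have h4 := hsq S2
      have hsum : ∑ q ∈ S2, ((if (∃ r ∈ ps, ch (r : ℤ) q = -1) then D.ρ q / q else 0) +
          (if D.β = 1 ∧ q % 4 = 3 then 1 / (q : ℝ) else 0) - (D.κ + 1) / (q : ℝ) ^ 2) ≤ Sg2 :=
        Finset.sum_le_sum fun q hq => (hme2 q hq).1
      rw [Finset.sum_sub_distrib, Finset.sum_add_distrib] at hsum
      have e1 : ∑ q ∈ S2, (if (∃ r ∈ ps, ch (r : ℤ) q = -1) then D.ρ q / q else 0) =
          ∑ q ∈ (PI y z).filter (fun q => ¬ q ∣ D.c0 ∧ ∃ p ∈ ps, ch (p : ℤ) q = -1),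
            D.ρ q / q := by
        rw [← Finset.sum_filter, hS2, Finset.filter_filter]
      have e2 : D.β / 2 * Real.log (Real.log z / Real.log y) - C3 ≤
          ∑ q ∈ S2, (if D.β = 1 ∧ q % 4 = 3 then 1 / (q : ℝ) else 0) := by
        rcases hD.β01 with hβ | hβ
        · have : ∀ q ∈ S2, (if D.β = 1 ∧ q % 4 = 3 then 1 / (q : ℝ) else 0) = 0 := by
            intro q _
            rw [if_neg]
            rintro ⟨h, -⟩
            rw [hβ] at h
            norm_num at h
          rw [Finset.sum_congr rfl this, Finset.sum_const_zero, hβ]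
          linarith
        · have : ∀ q ∈ S2, (if D.β = 1 ∧ q % 4 = 3 then 1 / (q : ℝ) else 0) =
              (if q % 4 = 3 then 1 / (q : ℝ) else 0) := by
            intro q _
            simp only [hβ, true_and]
          rw [Finset.sum_congr rfl this, hβ]
          linarith
      have e3 : ∑ q ∈ S2, (D.κ + 1) / (q : ℝ) ^ 2 ≤ (D.κ + 1) * Cq := by
        have : ∀ q ∈ S2, (D.κ + 1) / (q : ℝ) ^ 2 = (D.κ + 1) * (1 / (q : ℝ) ^ 2) := by
          intro q _; ring
        rw [Finset.sum_congr rfl this, ← Finset.mul_sum]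
        exact mul_le_mul_of_nonneg_left h4 (by linarith)
      rw [← e1] at h2
      have e4 : δ = (D.τ - D.κ / 2 ^ k) + D.β / 2 := by rw [hδ]; unfold Dk; ring
      have e5 : δ * Real.log (Real.log z / Real.log y) - C2 ≤ Sg2 := by
        rw [e4, hC2]
        linarith
      rw [Real.log_div (by linarith) (by linarith)] at e5
      have h5 : δ * Real.log (Real.log y) ≤ δ * (Real.log K + Real.log (Real.log P3)) :=
        mul_le_mul_of_nonneg_left hlly (by linarith)
      rw [hC']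
      linarith
  have hexpo : Real.exp (-(∑ r ∈ S1, (1 / (r : ℝ) - 1 / (r : ℝ) ^ 2) + Sg2)) ≤
      Real.exp C' * (Real.log z) ^ (-δ) := by
    rw [Real.rpow_def_of_pos (by linarith), ← Real.exp_add]
    apply Real.exp_le_exp.2
    linarith
  have hrp : 0 ≤ (Real.log z) ^ (-δ) := Real.rpow_nonneg (by linarith) _
  have hXP0 : (0 : ℝ) ≤ X / Pr := by positivity
  calc Cs * ((X / Pr : ℕ) : ℝ) * Real.exp (-(∑ r ∈ S1, (1 / (r : ℝ) - 1 / (r : ℝ) ^ 2) + Sg2))
      ≤ Cs * (X / Pr) * (Real.exp C' * (Real.log z) ^ (-δ)) := by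
        gcongr
    _ = (Cs * Real.exp C') * (X / Pr) * (Real.log z) ^ (-δ) := by ring
    _ ≤ (Cs * Real.exp C' + Cs + k + 1) * (X / Pr) * (Real.log z) ^ (-δ) := by
        apply mul_le_mul_of_nonneg_right _ hrp
        apply mul_le_mul_of_nonneg_right _ hXP0
        linarith

/-- the covering -/
theorem cover (P : ℕ → Prop) (c0 : ℕ) (k z X : ℕ) :
    (Icc 1 X).filter P ⊆
      (((range k).biUnion (fun j => (PI 0 z).powersetCard j)).biUnion (fun ps =>
        (Icc 1 X).filter (fun n => (∀ p ∈ ps, Ex c0 n p) ∧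
          ∀ p : ℕ, p ≤ z → Ex c0 n p → p ∈ ps))) ∪
      (((PI 0 z).powersetCard k).biUnion (fun ps =>
        (Icc 1 X).filter (fun n => P n ∧ (∀ p ∈ ps, Ex c0 n p) ∧
          ∀ p : ℕ, Ex c0 n p → p ≤ ps.sup id → p ∈ ps))) := by
  intro n hn
  rw [Finset.mem_filter] at hn
  obtain ⟨hn1, hn2⟩ := hn
  set T := (PI 0 z).filter (fun p => Ex c0 n p) with hT
  have hTm : ∀ p, p ≤ z → Ex c0 n p → p ∈ T := by
    intro p hp he
    rw [hT, Finset.mem_filter]
    refine ⟨?_, he⟩
    unfold PI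
    rw [Finset.mem_filter, Finset.mem_Ioc]
    exact ⟨⟨he.1.pos, hp⟩, he.1⟩
  have hTe : ∀ p ∈ T, Ex c0 n p := fun p hp => (Finset.mem_filter.1 hp).2
  have hTs : T ⊆ PI 0 z := Finset.filter_subset _ _
  rw [Finset.mem_union]
  by_cases hk : T.card < k
  · left
    rw [Finset.mem_biUnion]
    refine ⟨T, ?_, ?_⟩
    · rw [Finset.mem_biUnion]
      exact ⟨T.card, Finset.mem_range.2 hk, Finset.mem_powersetCard.2 ⟨hTs, rfl⟩⟩
    · rw [Finset.mem_filter]
      exact ⟨hn1, hTe, hTm⟩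
  · right
    push Not at hk
    have h0 : 0 ∉ T := fun h => Nat.not_prime_zero (hTe 0 h).1
    obtain ⟨ps, hps, hcard, hdown⟩ := d3_smallest T h0 k hk
    rw [Finset.mem_biUnion]
    refine ⟨ps, Finset.mem_powersetCard.2 ⟨hps.trans hTs, hcard⟩, ?_⟩
    rw [Finset.mem_filter]
    refine ⟨hn1, hn2, fun p hp => hTe p (hps hp), fun p he hle => ?_⟩
    apply hdown p _ hle
    apply hTm p _ he
    refine hle.trans (Finset.sup_le fun q hq => ?_)
    have := hTs (hps hq)
    unfold PI at this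
    rw [Finset.mem_filter, Finset.mem_Ioc] at this
    exact this.1.2

theorem combine (sv : S_SV) (mn : S_MN) (bk : S_BK) (D : Dat) (hD : AxG D) (k : ℕ) (hk : 1 ≤ k)
    (hD0 : 0 < Dk D k) (hD1 : Dk D k ≤ 1) :
    ∃ C : ℝ, 1 ≤ C ∧ ∀ z X : ℕ, 3 ≤ z →
    C * Real.log z * (1 + Real.log (Real.log z)) ≤ Real.log X →
      ({n : ℕ | 1 ≤ n ∧ n ≤ X ∧ Pass D n}.ncard : ℝ) ≤
      C * X * (1 + Real.log (Real.log z)) ^ k * (Real.log z) ^ (-Dk D k) := by
  obtain ⟨C1, hC1, h1⟩ := countI D.c0 hD.c0_pos k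
  obtain ⟨C2, hC2, h2⟩ := ca2 sv mn bk D hD k hk hD0 hD1
  choose D' hD'1 hD' using sum_inv_prod
  have hsum : 0 ≤ ∑ j ∈ range k, D' j := sum_nonneg (fun j _ => by linarith [hD'1 j])
  refine ⟨C1 + C2 + C1 * (∑ j ∈ range k, D' j) + C2 * D' k, ?_, fun z X hz hX => ?_⟩
  · have : 0 ≤ C1 * (∑ j ∈ range k, D' j) := mul_nonneg (by linarith) hsum
    have : 0 ≤ C2 * D' k := mul_nonneg (by linarith) (by linarith [hD'1 k])
    linarith
  · obtain ⟨hlog, hll⟩ := d3_log hz
    have hp1 : 0 ≤ C1 * (∑ j ∈ range k, D' j) := mul_nonneg (by linarith) hsum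
    have hp2 : 0 ≤ C2 * D' k := mul_nonneg (by linarith) (by linarith [hD'1 k])
    have hA : 0 ≤ Real.log z * (1 + Real.log (Real.log z)) := by positivity
    have hX1 : C1 * Real.log z * (1 + Real.log (Real.log z)) ≤ Real.log X := by
      refine le_trans ?_ hX
      rw [mul_assoc, mul_assoc]
      exact mul_le_mul_of_nonneg_right (by linarith) hA
    have hX2 : C2 * Real.log z * (1 + Real.log (Real.log z)) ≤ Real.log X := by
      refine le_trans ?_ hX
      rw [mul_assoc, mul_assoc]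
      exact mul_le_mul_of_nonneg_right (by linarith) hA
    set LL : ℝ := 1 + Real.log (Real.log z) with hLL
    set W : ℝ := (Real.log z) ^ (-Dk D k) with hW
    have hLL1 : 1 ≤ LL := by linarith
    have hW0 : 0 ≤ W := Real.rpow_nonneg (by linarith) _
    have hW1 : 1 / Real.log z ≤ W := by
      rw [hW, one_div, ← Real.rpow_neg_one]
      apply Real.rpow_le_rpow_of_exponent_le hlog
      linarith
    have hXn : (0 : ℝ) ≤ X := Nat.cast_nonneg _
    rw [d3_ncard]
    have hcov := Finset.card_le_card (cover (Pass D) D.c0 k z X)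
    have hcov2 := (hcov.trans (Finset.card_union_le _ _)).trans
      (Nat.add_le_add Finset.card_biUnion_le Finset.card_biUnion_le)
    have hcov3 : (((Icc 1 X).filter (Pass D)).card : ℝ) ≤
        ∑ ps ∈ (range k).biUnion (fun j => (PI 0 z).powersetCard j),
          (((Icc 1 X).filter (fun n => (∀ p ∈ ps, Ex D.c0 n p) ∧
            ∀ p : ℕ, p ≤ z → Ex D.c0 n p → p ∈ ps)).card : ℝ) +
        ∑ ps ∈ (PI 0 z).powersetCard k,
          (((Icc 1 X).filter (fun n => Pass D n ∧ (∀ p ∈ ps, Ex D.c0 n p) ∧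
            ∀ p : ℕ, Ex D.c0 n p → p ≤ ps.sup id → p ∈ ps)).card : ℝ) := by
      exact_mod_cast hcov2
    refine hcov3.trans ?_
    -- the first sum
    have hI : ∀ j ∈ range k, ∑ ps ∈ (PI 0 z).powersetCard j,
        (((Icc 1 X).filter (fun n => (∀ p ∈ ps, Ex D.c0 n p) ∧
            ∀ p : ℕ, p ≤ z → Ex D.c0 n p → p ∈ ps)).card : ℝ) ≤ D' j * (C1 * X * LL ^ k * W) := by
      intro j hj
      rw [Finset.mem_range] at hj
      have h3 : ∀ ps ∈ (PI 0 z).powersetCard j,
          (((Icc 1 X).filter (fun n => (∀ p ∈ ps, Ex D.c0 n p) ∧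
            ∀ p : ℕ, p ≤ z → Ex D.c0 n p → p ∈ ps)).card : ℝ) ≤
          (C1 * X * W) * (1 / ∏ p ∈ ps, (p : ℝ)) := by
        intro ps hps
        obtain ⟨hc, hpp⟩ := d3_ps hps
        have h4 := h1 z X hz hX1 ps (by omega) hpp
        rw [d3_ncard] at h4
        refine h4.trans ?_
        have hpr : 0 ≤ 1 / ∏ p ∈ ps, (p : ℝ) := by positivity
        have h5 : C1 * (X / ∏ p ∈ ps, (p : ℝ)) / Real.log z =
            (C1 * X * (1 / ∏ p ∈ ps, (p : ℝ))) * (1 / Real.log z) := by ring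
        rw [h5]
        have h6 := mul_le_mul_of_nonneg_left hW1
          (show 0 ≤ C1 * X * (1 / ∏ p ∈ ps, (p : ℝ)) by positivity)
        linarith
      have h4 := Finset.sum_le_sum h3
      rw [← Finset.mul_sum] at h4
      have h5 := mul_le_mul_of_nonneg_left (hD' j z hz) (show 0 ≤ C1 * X * W by positivity)
      have h6 : LL ^ j ≤ LL ^ k := pow_le_pow_right₀ hLL1 hj.le
      have h7 := mul_le_mul_of_nonneg_left h6
        (show 0 ≤ C1 * X * W * D' j from mul_nonneg (by positivity) (by linarith [hD'1 j]))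
      calc _ ≤ _ := h4
        _ ≤ C1 * X * W * (D' j * LL ^ j) := h5
        _ = C1 * X * W * D' j * LL ^ j := by ring
        _ ≤ C1 * X * W * D' j * LL ^ k := h7
        _ = D' j * (C1 * X * LL ^ k * W) := by ring
    have hI2 : ∑ ps ∈ (range k).biUnion (fun j => (PI 0 z).powersetCard j),
        (((Icc 1 X).filter (fun n => (∀ p ∈ ps, Ex D.c0 n p) ∧
            ∀ p : ℕ, p ≤ z → Ex D.c0 n p → p ∈ ps)).card : ℝ) ≤
        (∑ j ∈ range k, D' j) * (C1 * X * LL ^ k * W) := by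
      rw [Finset.sum_biUnion]
      · rw [Finset.sum_mul]
        exact Finset.sum_le_sum hI
      · intro i _ j _ hij
        rw [Function.onFun, Finset.disjoint_left]
        intro ps h3 h4
        exact hij ((d3_ps h3).1.symm.trans (d3_ps h4).1)
    -- the second sum
    have hII : ∑ ps ∈ (PI 0 z).powersetCard k,
        (((Icc 1 X).filter (fun n => Pass D n ∧ (∀ p ∈ ps, Ex D.c0 n p) ∧
            ∀ p : ℕ, Ex D.c0 n p → p ≤ ps.sup id → p ∈ ps)).card : ℝ) ≤
        D' k * (C2 * X * LL ^ k * W) := by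
      have h3 : ∀ ps ∈ (PI 0 z).powersetCard k,
          (((Icc 1 X).filter (fun n => Pass D n ∧ (∀ p ∈ ps, Ex D.c0 n p) ∧
            ∀ p : ℕ, Ex D.c0 n p → p ≤ ps.sup id → p ∈ ps)).card : ℝ) ≤
          (C2 * X * W) * (1 / ∏ p ∈ ps, (p : ℝ)) := by
        intro ps hps
        obtain ⟨hc, hpp⟩ := d3_ps hps
        have h4 := h2 z X hz hX2 ps hc hpp
        rw [d3_ncard] at h4
        refine h4.trans (le_of_eq ?_)
        ring
      have h4 := Finset.sum_le_sum h3
      rw [← Finset.mul_sum] at h4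
      have h5 := mul_le_mul_of_nonneg_left (hD' k z hz) (show 0 ≤ C2 * X * W by positivity)
      calc _ ≤ _ := h4
        _ ≤ C2 * X * W * (D' k * LL ^ k) := h5
        _ = D' k * (C2 * X * LL ^ k * W) := by ring
    have hpos1 : 0 ≤ C1 * (X * LL ^ k * W) := by positivity
    have hpos2 : 0 ≤ C2 * (X * LL ^ k * W) := by positivity
    calc _ ≤ (∑ j ∈ range k, D' j) * (C1 * X * LL ^ k * W) + D' k * (C2 * X * LL ^ k * W) :=
          add_le_add hI2 hII
      _ ≤ C1 * (X * LL ^ k * W) + C2 * (X * LL ^ k * W) +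
          ((∑ j ∈ range k, D' j) * (C1 * X * LL ^ k * W) + D' k * (C2 * X * LL ^ k * W)) := by
        linarith
      _ = (C1 + C2 + C1 * (∑ j ∈ range k, D' j) + C2 * D' k) * X * LL ^ k * W := by ring

theorem exists_kk (D : Dat) (hD : AxG D) (h1 : D.τ + D.β / 2 = 1) (ε : ℝ) (hε : 0 < ε) :
    ∃ k : ℕ, 1 ≤ k ∧ 0 < Dk D k ∧ Dk D k ≤ 1 ∧ 1 - ε ≤ Dk D k := by
  have hκ := hD.κ1
  obtain ⟨k, hk⟩ := exists_pow_lt_of_lt_one (show 0 < min ε (1 / 2) / D.κ by positivity)
    (by norm_num : (1 / 2 : ℝ) < 1)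
  refine ⟨k + 1, by omega, ?_⟩
  have h2 : D.κ / 2 ^ (k + 1) ≤ min ε (1 / 2) := by
    have e : D.κ / 2 ^ (k + 1) = D.κ * (1 / 2 : ℝ) ^ (k + 1) := by
      rw [one_div, inv_pow, div_eq_mul_inv]
    have e2 : (1 / 2 : ℝ) ^ (k + 1) ≤ (1 / 2 : ℝ) ^ k :=
      pow_le_pow_of_le_one (by norm_num) (by norm_num) (by omega)
    rw [e]
    rw [lt_div_iff₀ (by linarith)] at hk
    nlinarith
  have h3 : 0 ≤ D.κ / 2 ^ (k + 1) := by positivity
  have h4 : min ε (1 / 2) ≤ ε := min_le_left _ _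
  have h5 : min ε (1 / 2) ≤ (1 / 2 : ℝ) := min_le_right _ _
  unfold Dk
  refine ⟨by linarith, by linarith, by linarith⟩

theorem oc (sv : S_SV) (mn : S_MN) (bk : S_BK) (D : Dat) (hD : AxG D) (hτ : D.τ + D.β / 2 = 1)
    (ε : ℝ) (hε : 0 < ε) :
    ∃ C : ℝ, 0 < C ∧ ∀ X : ℕ, 3 ≤ X →
      ({n : ℕ | 1 ≤ n ∧ n ≤ X ∧ Pass D n}.ncard : ℝ) ≤ C * X * (Real.log X) ^ (ε - 1) := by
  obtain ⟨k, hk, hD0, hD1, hkε⟩ := exists_kk D hD hτ (ε / 2) (by linarith)
  obtain ⟨C1, hC1, H⟩ := combine sv mn bk D hD k hk hD0 hD1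
  set a : ℝ := ε / (2 * (k + 1)) with ha
  have ha0 : 0 < a := by positivity
  set C2 : ℝ := 2 * C1 ^ 2 * (1 + 1 / a) ^ (k + 1) with hC2
  have hC20 : 0 < C2 := by positivity
  refine ⟨36 * C1 ^ 2 + C2 + 1, by positivity, fun X hX => ?_⟩
  have hX3 : (3 : ℝ) ≤ X := by exact_mod_cast hX
  have hX0 : (0 : ℝ) < X := by linarith
  set L := Real.log X with hL
  have hL1 : 1 ≤ L := by
    rw [hL, Real.le_log_iff_exp_le hX0]
    have := Real.exp_one_lt_d9
    linarith
  have hL0 : 0 < L := by linarith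
  have hLpow : 0 < L ^ (ε - 1) := Real.rpow_pos_of_pos hL0 _
  have hlogL : 0 ≤ Real.log L := Real.log_nonneg hL1
  by_cases hbig : L < 36 * C1 ^ 2
  · -- trivial bound
    have h1 : ({n : ℕ | 1 ≤ n ∧ n ≤ X ∧ Pass D n}.ncard : ℝ) ≤ X := by
      have h2 : {n : ℕ | 1 ≤ n ∧ n ≤ X ∧ Pass D n} ⊆ (Icc 1 X : Finset ℕ) := by
        intro n hn
        simp only [Set.mem_ofPred_eq] at hn
        simp only [coe_Icc, Set.mem_Icc]
        exact ⟨hn.1, hn.2.1⟩
      have h3 := Set.ncard_le_ncard h2 (Finset.finite_toSet _)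
      rw [Set.ncard_coe_finset, Nat.card_Icc] at h3
      have : ({n : ℕ | 1 ≤ n ∧ n ≤ X ∧ Pass D n}.ncard) ≤ X := by omega
      exact_mod_cast this
    refine h1.trans ?_
    have h4 : L⁻¹ ≤ L ^ (ε - 1) := by
      rw [← Real.rpow_neg_one]
      exact Real.rpow_le_rpow_of_exponent_le hL1 (by linarith)
    have h5 : 1 ≤ (36 * C1 ^ 2) * L ^ (ε - 1) := by
      calc (1 : ℝ) = L * L⁻¹ := by field_simp
        _ ≤ (36 * C1 ^ 2) * L ^ (ε - 1) := by
          apply mul_le_mul hbig.le h4 (by positivity) (by positivity)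
    have h6 : (36 * C1 ^ 2 + C2 + 1) * X * L ^ (ε - 1) =
        X * ((36 * C1 ^ 2) * L ^ (ε - 1)) + X * ((C2 + 1) * L ^ (ε - 1)) := by ring
    rw [h6]
    have h7 : 0 ≤ (X : ℝ) * ((C2 + 1) * L ^ (ε - 1)) := by positivity
    nlinarith
  · push Not at hbig
    -- the choice of `z`
    set s : ℝ := L / (C1 * (1 + Real.log L)) with hs
    have hden : 0 < C1 * (1 + Real.log L) := by positivity
    have hs2 : 2 ≤ s := by
      rw [hs, le_div_iff₀ hden]
      have h1 := one_add_log_le (1 / 2) L (by norm_num) hL1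
      rw [← Real.sqrt_eq_rpow] at h1
      have h2 : 6 * C1 ≤ Real.sqrt L := by
        apply Real.le_sqrt_of_sq_le
        nlinarith
      have h3 : Real.sqrt L * Real.sqrt L = L := Real.mul_self_sqrt hL0.le
      have h5 : (0:ℝ) ≤ Real.sqrt L := Real.sqrt_nonneg _
      have h4 : 1 + Real.log L ≤ 3 * Real.sqrt L := by
        have : (1 + 1 / (1 / 2 : ℝ)) = 3 := by norm_num
        rw [this] at h1
        exact h1
      calc 2 * (C1 * (1 + Real.log L)) ≤ 2 * (C1 * (3 * Real.sqrt L)) := by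
            apply mul_le_mul_of_nonneg_left _ (by norm_num)
            exact mul_le_mul_of_nonneg_left h4 (by linarith)
        _ = (6 * C1) * Real.sqrt L := by ring
        _ ≤ Real.sqrt L * Real.sqrt L := mul_le_mul_of_nonneg_right h2 h5
        _ = L := h3
    set z : ℕ := ⌊Real.exp s⌋₊ with hz
    have hexps : 4 ≤ Real.exp s := by
      have h1 : Real.exp 2 ≤ Real.exp s := Real.exp_le_exp.2 hs2
      have h2 : Real.exp 2 = Real.exp 1 * Real.exp 1 := by rw [← Real.exp_add]; norm_num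
      have h3 := Real.exp_one_gt_d9
      nlinarith
    have hz4 : 4 ≤ z := by
      rw [hz]
      exact Nat.le_floor (by exact_mod_cast hexps)
    have hz3 : 3 ≤ z := by omega
    have hz0 : (0 : ℝ) < z := by
      have : 0 < z := by omega
      exact_mod_cast this
    have hzle : (z : ℝ) ≤ Real.exp s := Nat.floor_le (Real.exp_pos s).le
    have hzge : Real.exp s / 2 ≤ z := by
      have h1 : Real.exp s < z + 1 := Nat.lt_floor_add_one _
      linarith
    have hlogz_le : Real.log z ≤ s := by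
      have := Real.log_le_log hz0 hzle
      rwa [Real.log_exp] at this
    have hlogz_ge : s / 2 ≤ Real.log z := by
      have h1 := Real.log_le_log (by positivity) hzge
      rw [Real.log_div (Real.exp_pos s).ne' (by norm_num), Real.log_exp] at h1
      have h2 : Real.log 2 ≤ 1 := by
        have := Real.log_two_lt_d9
        linarith
      linarith
    have hlogz1 : 1 ≤ Real.log z := by linarith
    have hlogz0 : 0 < Real.log z := by linarith
    have hsL : s ≤ L := by
      rw [hs]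
      apply div_le_self hL0.le
      nlinarith
    have hll : Real.log (Real.log z) ≤ Real.log L :=
      Real.log_le_log hlogz0 (hlogz_le.trans hsL)
    have hll0 : 0 ≤ Real.log (Real.log z) := Real.log_nonneg hlogz1
    have hcond : C1 * Real.log z * (1 + Real.log (Real.log z)) ≤ Real.log X := by
      calc C1 * Real.log z * (1 + Real.log (Real.log z)) ≤ C1 * s * (1 + Real.log L) := by
            apply mul_le_mul _ (by linarith) (by linarith) (by positivity)
            exact mul_le_mul_of_nonneg_left hlogz_le (by linarith)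
        _ = L := by
            rw [hs]
            field_simp
    have h1 := H z X hz3 hcond
    refine h1.trans ?_
    -- estimate the factors
    have e1 : (1 + Real.log (Real.log z)) ^ k ≤ (1 + Real.log L) ^ k :=
      pow_le_pow_left₀ (by linarith) (by linarith) k
    have e2 : (Real.log z) ^ (-Dk D k) ≤
        2 * C1 * (1 + Real.log L) * L ^ (-1 + ε / 2) := by
      have f1 : (Real.log z) ^ (-Dk D k) ≤ (s / 2) ^ (-Dk D k) :=
        Real.rpow_le_rpow_of_nonpos (by linarith) hlogz_ge (by linarith)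
      refine f1.trans ?_
      have f2 : s / 2 = L / (2 * (C1 * (1 + Real.log L))) := by
        rw [hs, div_div]
        ring_nf
      rw [f2, Real.div_rpow hL0.le (by positivity)]
      have f3 : L ^ (-Dk D k) ≤ L ^ (-1 + ε / 2) :=
        Real.rpow_le_rpow_of_exponent_le hL1 (by linarith)
      have f4 : (1 : ℝ) ≤ 2 * (C1 * (1 + Real.log L)) := by nlinarith
      have f5 : ((2 * (C1 * (1 + Real.log L))) ^ (-Dk D k))⁻¹ ≤
          2 * (C1 * (1 + Real.log L)) := by
        rw [← Real.rpow_neg (by linarith)]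
        calc (2 * (C1 * (1 + Real.log L))) ^ (-(-Dk D k))
            ≤ (2 * (C1 * (1 + Real.log L))) ^ (1 : ℝ) :=
              Real.rpow_le_rpow_of_exponent_le f4 (by linarith)
          _ = _ := Real.rpow_one _
      rw [div_eq_mul_inv]
      calc L ^ (-Dk D k) *
            ((2 * (C1 * (1 + Real.log L))) ^ (-Dk D k))⁻¹
          ≤ L ^ (-1 + ε / 2) * (2 * (C1 * (1 + Real.log L))) :=
            mul_le_mul f3 f5 (by positivity) (by positivity)
        _ = _ := by ring
    have e3 : (1 + Real.log L) ^ (k + 1) ≤ (1 + 1 / a) ^ (k + 1) * L ^ (ε / 2) := by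
      have f1 := one_add_log_le a L ha0 hL1
      calc (1 + Real.log L) ^ (k + 1) ≤ ((1 + 1 / a) * L ^ a) ^ (k + 1) :=
            pow_le_pow_left₀ (by linarith) f1 _
        _ = (1 + 1 / a) ^ (k + 1) * L ^ (ε / 2) := by
            rw [mul_pow, ← Real.rpow_natCast (L ^ a), ← Real.rpow_mul hL0.le]
            congr 2
            rw [ha]
            push_cast
            field_simp
    have e4 : C1 * X * (1 + Real.log (Real.log z)) ^ k *
        (Real.log z) ^ (-Dk D k) ≤ C2 * X * L ^ (ε - 1) := by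
      calc C1 * X * (1 + Real.log (Real.log z)) ^ k * (Real.log z) ^ (-Dk D k)
          ≤ C1 * X * (1 + Real.log L) ^ k * (2 * C1 * (1 + Real.log L) * L ^ (-1 + ε / 2)) := by
            apply mul_le_mul _ e2 (by positivity) (by positivity)
            exact mul_le_mul_of_nonneg_left e1 (by positivity)
        _ = 2 * C1 ^ 2 * X * (1 + Real.log L) ^ (k + 1) * L ^ (-1 + ε / 2) := by ring
        _ ≤ 2 * C1 ^ 2 * X * ((1 + 1 / a) ^ (k + 1) * L ^ (ε / 2)) * L ^ (-1 + ε / 2) := by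
            apply mul_le_mul_of_nonneg_right _ (by positivity)
            exact mul_le_mul_of_nonneg_left e3 (by positivity)
        _ = C2 * X * (L ^ (ε / 2) * L ^ (-1 + ε / 2)) := by rw [hC2]; ring
        _ = C2 * X * L ^ (ε - 1) := by
            rw [← Real.rpow_add hL0]
            congr 2
            ring
    refine e4.trans ?_
    have h6 : (36 * C1 ^ 2 + C2 + 1) * X * L ^ (ε - 1) =
        C2 * X * L ^ (ε - 1) + (36 * C1 ^ 2 + 1) * X * L ^ (ε - 1) := by ring
    rw [h6]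
    have h7 : 0 ≤ (36 * C1 ^ 2 + 1) * X * L ^ (ε - 1) := by positivity
    linarith


end Pool.Agent.Y346.SG.OC
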